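import Mathlib

/-!
The spread lemma (Alweiss, Lovett, Wu, Zhang; Rao; Park and Pham), in a colouring form: a spread
indexed family of sets of size at most `k` contains `r` pairwise disjoint members.
-/

open Finset

set_option linter.unusedSectionVars false

namespace Pool.Agent.Helper10.GcdSun

section steps

variable {X ι : Type*} [DecidableEq X] [DecidableEq ι]

/-- the index of a member `F j ⊆ F i ∪ W` of the family for which `F j \ W` is as small as
possible -/
noncomputable def best (F : ι → Finset X) (A : Finset ι) (W : Finset X) (i : ι) : ι :=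
  if h : (A.filter (fun j => F j ⊆ F i ∪ W)).Nonempty then
    (exists_min_image _ (fun j => (F j \ W).card) h).choose else i

theorem best_spec {F : ι → Finset X} {A : Finset ι} {W : Finset X} {i : ι} (hi : i ∈ A) :
    best F A W i ∈ A ∧ F (best F A W i) ⊆ F i ∪ W ∧
      ∀ j ∈ A, F j ⊆ F i ∪ W → (F (best F A W i) \ W).card ≤ (F j \ W).card := by
  have h : (A.filter (fun j => F j ⊆ F i ∪ W)).Nonempty :=
    ⟨i, mem_filter.2 ⟨hi, subset_union_left⟩⟩
  have hs := (exists_min_image _ (fun j => (F j \ W).card) h).choose_spec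
  rw [← show best F A W i = (exists_min_image _ (fun j => (F j \ W).card) h).choose by
    unfold best; rw [dif_pos h]] at hs
  obtain ⟨h1, h2⟩ := hs
  rw [mem_filter] at h1
  exact ⟨h1.1, h1.2, fun j hj hj' => h2 j (mem_filter.2 ⟨hj, hj'⟩)⟩

/-- the fragment -/
noncomputable def frag (F : ι → Finset X) (A : Finset ι) (W : Finset X) (i : ι) : Finset X :=
  F (best F A W i) \ W

theorem frag_subset {F : ι → Finset X} {A : Finset ι} {W : Finset X} {i : ι} (hi : i ∈ A) :
    frag F A W i ⊆ F i := by
  intro x hx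
  unfold frag at hx
  rw [mem_sdiff] at hx
  have := (best_spec (F := F) (W := W) hi).2.1 hx.1
  rw [mem_union] at this
  exact this.resolve_right hx.2

/-- the fragments and the surviving indices after `s` stages -/
noncomputable def st (S : ι → Finset X) (I : Finset ι) (k : ℕ) (W : ℕ → Finset X) :
    ℕ → (ι → Finset X) × Finset ι
  | 0 => (S, I)
  | s + 1 => (frag (st S I k W s).1 (st S I k W s).2 (W s),
      (st S I k W s).2.filter
        (fun i => (frag (st S I k W s).1 (st S I k W s).2 (W s) i).card ≤ k / 2 ^ (s + 1)))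

variable {S : ι → Finset X} {I : Finset ι} {k : ℕ} {W W' : ℕ → Finset X}

theorem st_congr {s : ℕ} (h : ∀ u < s, W u = W' u) : st S I k W s = st S I k W' s := by
  induction s with
  | zero => rfl
  | succ s ih =>
    simp only [st]
    rw [ih (fun u hu => h u (hu.trans (Nat.lt_succ_self s))), h s (Nat.lt_succ_self s)]

theorem st_anti (s : ℕ) : (st S I k W (s + 1)).2 ⊆ (st S I k W s).2 := by
  simp only [st]
  exact filter_subset _ _

theorem st_subI (s : ℕ) : (st S I k W s).2 ⊆ I := by
  induction s with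
  | zero => exact subset_refl _
  | succ s ih => exact (st_anti s).trans ih

theorem st_card (hS : ∀ i ∈ I, (S i).card ≤ k) {s : ℕ} {i : ι} (hi : i ∈ (st S I k W s).2) :
    ((st S I k W s).1 i).card ≤ k / 2 ^ s := by
  cases s with
  | zero =>
    simp only [st] at hi ⊢
    simpa using hS i hi
  | succ s =>
    simp only [st] at hi ⊢
    exact (mem_filter.1 hi).2

theorem st_sub {s : ℕ} {i : ι} (hi : i ∈ (st S I k W s).2) : (st S I k W s).1 i ⊆ S i := by
  induction s generalizing i with
  | zero => exact subset_refl _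
  | succ s ih =>
    have h0 := st_anti s hi
    have : (st S I k W (s + 1)).1 i = frag (st S I k W s).1 (st S I k W s).2 (W s) i := rfl
    rw [this]
    exact (frag_subset h0).trans (ih h0)

theorem st_disj {s : ℕ} {i : ι} (hi : i ∈ (st S I k W s).2) {u : ℕ} (hu : u < s) :
    Disjoint ((st S I k W s).1 i) (W u) := by
  induction s generalizing i with
  | zero => omega
  | succ s ih =>
    have h0 := st_anti s hi
    have : (st S I k W (s + 1)).1 i = frag (st S I k W s).1 (st S I k W s).2 (W s) i := rfl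
    rw [this]
    unfold frag
    rcases Nat.lt_succ_iff_lt_or_eq.1 hu with h | h
    · exact (ih (best_spec h0).1 h).mono_left sdiff_subset
    · subst h
      exact sdiff_disjoint

theorem st_cover {s : ℕ} {i : ι} (hi : i ∈ (st S I k W s).2) :
    ∃ j ∈ I, S j ⊆ (st S I k W s).1 i ∪ (range s).biUnion W := by
  induction s generalizing i with
  | zero => exact ⟨i, hi, by simp [st]⟩
  | succ s ih =>
    have h0 := st_anti s hi
    obtain ⟨j, hj, hS⟩ := ih (best_spec (F := (st S I k W s).1) (W := W s) h0).1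
    refine ⟨j, hj, hS.trans ?_⟩
    intro x hx
    have e : (st S I k W (s + 1)).1 i = frag (st S I k W s).1 (st S I k W s).2 (W s) i := rfl
    rw [e]
    unfold frag
    simp only [mem_union, mem_sdiff, mem_biUnion, mem_range] at hx ⊢
    by_cases hw : x ∈ W s
    · exact Or.inr ⟨s, Nat.lt_succ_self s, hw⟩
    · rcases hx with hx | ⟨u, hu, hx⟩
      · exact Or.inl ⟨hx, hw⟩
      · exact Or.inr ⟨u, hu.trans (Nat.lt_succ_self s), hx⟩

end steps

section colours

variable {X ι κ : Type*} [DecidableEq X] [DecidableEq ι] [DecidableEq κ] [Fintype κ] [Fintype X]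

/-- colour classes of the stages -/
def cls (c : X → κ) (col : ℕ → κ) (u : ℕ) : Finset X := univ.filter (fun x => c x = col u)

theorem mem_cls {c : X → κ} {col : ℕ → κ} {u : ℕ} {x : X} : x ∈ cls c col u ↔ c x = col u := by
  simp [cls]

/-- a member of the family at stage `s` which is contained in the colour class `s` -/
noncomputable def star (S : ι → Finset X) (I : Finset ι) (k : ℕ) (col : ℕ → κ) (s : ℕ)
    (c : X → κ) : Finset X :=
  if h : ∃ j ∈ (st S I k (cls c col) s).2, (st S I k (cls c col) s).1 j ⊆ cls c col s then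
    (st S I k (cls c col) s).1 h.choose else ∅

/-- give the colour of stage `s` to the elements of `T` -/
def recol (col : ℕ → κ) (s : ℕ) (T : Finset X) (c : X → κ) : X → κ :=
  fun x => if x ∈ T then col s else c x

variable {S : ι → Finset X} {I : Finset ι} {k : ℕ} {col : ℕ → κ}

theorem star_card (hS : ∀ i ∈ I, (S i).card ≤ k) (s : ℕ) (c : X → κ) :
    (star S I k col s c).card ≤ k / 2 ^ s := by
  unfold star
  split_ifs with h
  · exact st_card hS h.choose_spec.1
  · simp

/-- the fragment `T` is contained in a set which depends only on the recoloured colouring -/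
theorem frag_subset_star {s : ℕ} (hcol : ∀ u < s, col u ≠ col s) {c : X → κ} {i : ι}
    (hi : i ∈ (st S I k (cls c col) s).2) {T : Finset X}
    (hT : (st S I k (cls c col) (s + 1)).1 i = T) :
    T ⊆ star S I k col s (recol col s T c) := by
  have e : (st S I k (cls c col) (s + 1)).1 i =
    frag (st S I k (cls c col) s).1 (st S I k (cls c col) s).2 (cls c col s) i := rfl
  rw [e] at hT
  set F := (st S I k (cls c col) s).1 with hF
  set A := (st S I k (cls c col) s).2 with hA
  set W := cls c col s with hW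
  obtain ⟨hb1, hb2, hb3⟩ := best_spec (F := F) (W := W) hi
  have hTi : T ⊆ F i := hT ▸ frag_subset hi
  have hcls : ∀ u < s, cls c col u = cls (recol col s T c) col u := by
    intro u hu
    ext x
    rw [mem_cls, mem_cls]
    unfold recol
    split_ifs with hx
    · constructor
      · intro h
        exact absurd (mem_cls.2 h) (disjoint_left.1 (st_disj hi hu) (hTi hx))
      · intro h
        exact absurd h.symm (hcol u hu)
    · rfl
  have hst : st S I k (cls (recol col s T c) col) s = st S I k (cls c col) s :=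
    (st_congr hcls).symm
  have hZ : cls (recol col s T c) col s = W ∪ T := by
    ext x
    rw [mem_union, hW, mem_cls, mem_cls]
    unfold recol
    split_ifs with hx
    · simp [hx]
    · simp [hx]
  unfold star
  rw [hst, ← hF, ← hA, hZ]
  have hex : ∃ j ∈ A, F j ⊆ W ∪ T := by
    refine ⟨_, hb1, ?_⟩
    intro x hx
    by_cases hw : x ∈ W
    · exact mem_union_left _ hw
    · refine mem_union_right _ ?_
      rw [← hT]
      exact mem_sdiff.2 ⟨hx, hw⟩
  rw [dif_pos hex]
  obtain ⟨h1, h2⟩ := hex.choose_spec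
  set j := hex.choose
  have h3 : F j \ W ⊆ T := by
    intro x hx
    rw [mem_sdiff] at hx
    exact (mem_union.1 (h2 hx.1)).resolve_left hx.2
  have h4 : T.card ≤ (F j \ W).card := by
    rw [← hT]
    refine hb3 j h1 ?_
    intro x hx
    rcases mem_union.1 (h2 hx) with h | h
    · exact mem_union_right _ h
    · exact mem_union_left _ (hTi h)
  have h5 : F j \ W = T := eq_of_subset_of_card_le h3 h4
  rw [← h5]
  exact sdiff_subset

/-- the number of colourings for which `i` has the fragment `T` at stage `s` -/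
theorem card_frag_le {s : ℕ} (hcol : ∀ u < s, col u ≠ col s) (i : ι) (T : Finset X) :
    (univ.filter (fun c : X → κ => i ∈ (st S I k (cls c col) s).2 ∧
      (st S I k (cls c col) (s + 1)).1 i = T)).card ≤
    Fintype.card κ ^ T.card *
      (univ.filter (fun c : X → κ => T ⊆ star S I k col s c)).card := by
  refine card_le_mul_card_image_of_maps_to (f := recol col s T) ?_ _ ?_
  · intro c hc
    rw [mem_filter] at hc
    exact mem_filter.2 ⟨mem_univ _, frag_subset_star hcol hc.2.1 hc.2.2⟩
  · intro c' _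
    have h : (univ : Finset (T → κ)).card = Fintype.card κ ^ T.card := by
      rw [card_univ, Fintype.card_fun, Fintype.card_coe]
    rw [← h]
    refine card_le_card_of_injOn (fun c (x : T) => c x.1) (fun _ _ => mem_univ _) ?_
    intro c1 h1 c2 h2 h12
    have e1 := (mem_filter.1 (mem_coe.1 h1)).2
    have e2 := (mem_filter.1 (mem_coe.1 h2)).2
    funext x
    by_cases hx : x ∈ T
    · exact congrFun h12 ⟨x, hx⟩
    · have a1 := congrFun e1 x
      have a2 := congrFun e2 x
      simp only [recol, hx, if_false] at a1 a2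
      rw [a1, a2]

/-- the number of pairs of a colouring and an index which dies at stage `s` -/
theorem sum_dead_le (hS : ∀ i ∈ I, (S i).card ≤ k) {R : ℝ}
    (hR : (Fintype.card κ : ℝ) ≤ R) (hR0 : 0 < R)
    (hsp : ∀ T : Finset X, ((I.filter (fun i => T ⊆ S i)).card : ℝ) * R ^ T.card ≤ I.card)
    {s : ℕ} (hcol : ∀ u < s, col u ≠ col s) :
    (∑ c : X → κ, (((st S I k (cls c col) s).2 \ (st S I k (cls c col) (s + 1)).2).card : ℝ)) ≤
      (Fintype.card (X → κ) : ℝ) * I.card * (4 * Fintype.card κ / R) ^ (k / 2 ^ (s + 1) + 1) := by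
  classical
  set h := k / 2 ^ (s + 1) with hh
  set M : ℝ := (Fintype.card κ : ℝ) with hM
  have hM0 : 0 ≤ M := by positivity
  have hl : k / 2 ^ s ≤ 2 * h + 1 := by
    have : h = k / 2 ^ s / 2 := by rw [hh, pow_succ, Nat.div_div_eq_div_mul]
    omega
  set P : Finset (Finset X) := univ.filter (fun T => h + 1 ≤ T.card) with hP
  -- the dead indices, by fragments
  have step1 : ∀ c : X → κ,
      ((((st S I k (cls c col) s).2 \ (st S I k (cls c col) (s + 1)).2).card : ℕ) : ℝ) ≤
      ∑ T ∈ P, ∑ i ∈ I.filter (fun i => T ⊆ S i),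
          (if i ∈ (st S I k (cls c col) s).2 ∧
            (st S I k (cls c col) (s + 1)).1 i = T then (1:ℝ) else 0) := by
    intro c
    have hsub : (st S I k (cls c col) s).2 \ (st S I k (cls c col) (s + 1)).2 ⊆
        P.biUnion (fun T => (I.filter (fun i => T ⊆ S i)).filter
          (fun i => i ∈ (st S I k (cls c col) s).2 ∧ (st S I k (cls c col) (s + 1)).1 i = T)) := by
      intro i hi
      rw [mem_sdiff] at hi
      have e : (st S I k (cls c col) (s + 1)).1 i =
        frag (st S I k (cls c col) s).1 (st S I k (cls c col) s).2 (cls c col s) i := rfl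
      have hcard : h + 1 ≤ ((st S I k (cls c col) (s + 1)).1 i).card := by
        by_contra hcon
        apply hi.2
        simp only [st]
        refine mem_filter.2 ⟨hi.1, ?_⟩
        rw [e] at hcon
        omega
      rw [mem_biUnion]
      refine ⟨(st S I k (cls c col) (s + 1)).1 i, mem_filter.2 ⟨mem_univ _, hcard⟩,
        mem_filter.2 ⟨mem_filter.2 ⟨st_subI s hi.1, ?_⟩, hi.1, rfl⟩⟩
      rw [e]
      exact (frag_subset hi.1).trans (st_sub hi.1)
    calc ((((st S I k (cls c col) s).2 \ (st S I k (cls c col) (s + 1)).2).card : ℕ) : ℝ)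
        ≤ ((∑ T ∈ P, ((I.filter (fun i => T ⊆ S i)).filter
          (fun i => i ∈ (st S I k (cls c col) s).2 ∧
            (st S I k (cls c col) (s + 1)).1 i = T)).card : ℕ) : ℝ) := by
          exact_mod_cast (card_le_card hsub).trans card_biUnion_le
      _ = _ := by
          push_cast
          refine sum_congr rfl fun T _ => ?_
          rw [card_filter]
          push_cast
          rfl
  have step2 : ∀ T : Finset X, ∀ i : ι,
      (∑ c : X → κ, (if i ∈ (st S I k (cls c col) s).2 ∧
            (st S I k (cls c col) (s + 1)).1 i = T then (1:ℝ) else 0)) ≤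
      M ^ T.card * ∑ c : X → κ, (if T ⊆ star S I k col s c then (1:ℝ) else 0) := by
    intro T i
    have := card_frag_le (S := S) (I := I) (k := k) hcol i T
    rw [card_filter, card_filter] at this
    rw [hM]
    exact_mod_cast this
  have step3 : ∀ c : X → κ,
      (∑ T ∈ P, (M / R) ^ T.card * (if T ⊆ star S I k col s c then (1:ℝ) else 0)) ≤
        (4 * M / R) ^ (h + 1) := by
    intro c
    have hMR : M / R ≤ 1 := (div_le_one hR0).2 hR
    have hMR0 : 0 ≤ M / R := div_nonneg hM0 hR0.le
    calc (∑ T ∈ P, (M / R) ^ T.card * (if T ⊆ star S I k col s c then (1:ℝ) else 0))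
        ≤ ∑ T ∈ P, (if T ⊆ star S I k col s c then (M / R) ^ (h + 1) else 0) := by
          refine sum_le_sum fun T hT => ?_
          split_ifs
          · rw [mul_one]
            exact pow_le_pow_of_le_one hMR0 hMR (mem_filter.1 hT).2
          · simp
      _ ≤ ∑ T ∈ (star S I k col s c).powerset, (M / R) ^ (h + 1) := by
          rw [← sum_filter]
          refine sum_le_sum_of_subset_of_nonneg ?_ fun _ _ _ => by positivity
          intro T hT
          rw [mem_powerset]
          exact (mem_filter.1 hT).2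
      _ = 2 ^ (star S I k col s c).card * (M / R) ^ (h + 1) := by
          rw [sum_const, card_powerset, nsmul_eq_mul]
          push_cast
          rfl
      _ ≤ 2 ^ (2 * (h + 1)) * (M / R) ^ (h + 1) := by
          refine mul_le_mul_of_nonneg_right ?_ (by positivity)
          refine pow_le_pow_right₀ (by norm_num) ?_
          have := star_card (col := col) hS s c
          omega
      _ = (4 * M / R) ^ (h + 1) := by
          rw [pow_mul, ← mul_pow]
          norm_num
          ring
  calc (∑ c : X → κ, (((st S I k (cls c col) s).2 \ (st S I k (cls c col) (s + 1)).2).card : ℝ))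
      ≤ ∑ c : X → κ, ∑ T ∈ P, ∑ i ∈ I.filter (fun i => T ⊆ S i),
          (if i ∈ (st S I k (cls c col) s).2 ∧
            (st S I k (cls c col) (s + 1)).1 i = T then (1:ℝ) else 0) :=
        sum_le_sum fun c _ => step1 c
    _ = ∑ T ∈ P, ∑ i ∈ I.filter (fun i => T ⊆ S i), ∑ c : X → κ,
          (if i ∈ (st S I k (cls c col) s).2 ∧
            (st S I k (cls c col) (s + 1)).1 i = T then (1:ℝ) else 0) := by
        rw [sum_comm]
        refine sum_congr rfl fun T _ => ?_
        rw [sum_comm]
    _ ≤ ∑ T ∈ P, ∑ i ∈ I.filter (fun i => T ⊆ S i),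
          M ^ T.card * ∑ c : X → κ, (if T ⊆ star S I k col s c then (1:ℝ) else 0) :=
        sum_le_sum fun T _ => sum_le_sum fun i _ => step2 T i
    _ = ∑ T ∈ P, ((I.filter (fun i => T ⊆ S i)).card : ℝ) *
          (M ^ T.card * ∑ c : X → κ, (if T ⊆ star S I k col s c then (1:ℝ) else 0)) := by
        refine sum_congr rfl fun T _ => ?_
        rw [sum_const, nsmul_eq_mul]
    _ ≤ ∑ T ∈ P, (I.card : ℝ) * ((M / R) ^ T.card *
          ∑ c : X → κ, (if T ⊆ star S I k col s c then (1:ℝ) else 0)) := by
        refine sum_le_sum fun T _ => ?_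
        set Q := ∑ c : X → κ, (if T ⊆ star S I k col s c then (1:ℝ) else 0) with hQ
        have hQ0 : 0 ≤ Q := sum_nonneg fun _ _ => by split_ifs <;> norm_num
        have hRT : 0 < R ^ T.card := pow_pos hR0 _
        have h1 : ((I.filter (fun i => T ⊆ S i)).card : ℝ) ≤ I.card / R ^ T.card := by
          rw [le_div_iff₀ hRT]
          exact hsp T
        calc ((I.filter (fun i => T ⊆ S i)).card : ℝ) * (M ^ T.card * Q)
            ≤ I.card / R ^ T.card * (M ^ T.card * Q) :=
              mul_le_mul_of_nonneg_right h1 (by positivity)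
          _ = (I.card : ℝ) * ((M / R) ^ T.card * Q) := by
              rw [div_pow]
              ring
    _ = (I.card : ℝ) * ∑ c : X → κ, ∑ T ∈ P,
          (M / R) ^ T.card * (if T ⊆ star S I k col s c then (1:ℝ) else 0) := by
        rw [← mul_sum, sum_comm]
        congr 1
        refine sum_congr rfl fun T _ => ?_
        rw [mul_sum]
    _ ≤ (I.card : ℝ) * ∑ c : X → κ, (4 * M / R) ^ (h + 1) := by
        refine mul_le_mul_of_nonneg_left ?_ (by positivity)
        exact sum_le_sum fun c _ => step3 c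
    _ = _ := by
        rw [sum_const, nsmul_eq_mul, card_univ]
        ring

theorem geom_le {k m : ℕ} (hm : 2 ^ m ≤ k) {q : ℝ} (hq : 0 ≤ q) (hq2 : q ≤ 1 / 2) :
    ∑ s ∈ range (m + 1), q ^ (k / 2 ^ (s + 1) + 1) ≤ 2 * q := by
  have h1 : ∀ s ∈ range (m + 1), q ^ (k / 2 ^ (s + 1) + 1) ≤ q * (1 / 2) ^ (m + 1 - 1 - s) := by
    intro s hs
    have hs' : s ≤ m := Nat.lt_succ_iff.1 (mem_range.1 hs)
    have h2 : m - s ≤ k / 2 ^ (s + 1) := by
      rcases Nat.eq_zero_or_pos (m - s) with h | h
      · rw [h]
        exact Nat.zero_le _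
      · obtain ⟨x, hx⟩ : ∃ x, m = s + 1 + x := ⟨m - s - 1, by omega⟩
        have h3 : 2 ^ x ≤ k / 2 ^ (s + 1) := by
          rw [Nat.le_div_iff_mul_le (by positivity), ← pow_add]
          rwa [hx, add_comm (s + 1)] at hm
        have h4 : x < 2 ^ x := Nat.lt_two_pow_self
        omega
    rw [pow_succ, mul_comm]
    refine mul_le_mul_of_nonneg_left ?_ hq
    calc q ^ (k / 2 ^ (s + 1)) ≤ (1 / 2) ^ (k / 2 ^ (s + 1)) := pow_le_pow_left₀ hq hq2 _
      _ ≤ (1 / 2) ^ (m + 1 - 1 - s) := by
          refine pow_le_pow_of_le_one (by norm_num) (by norm_num) ?_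
          omega
  refine (sum_le_sum h1).trans ?_
  rw [← mul_sum, sum_range_reflect (fun j => (1 / 2 : ℝ) ^ j) (m + 1), mul_comm]
  refine mul_le_mul_of_nonneg_right ?_ hq
  rw [geom_sum_eq (by norm_num)]
  have : (0:ℝ) ≤ (1 / 2) ^ (m + 1) := by positivity
  rw [div_le_iff_of_neg (by norm_num)]
  linarith

/-- the number of colourings for which all indices die in `m + 1` stages -/
theorem card_dead_le (hS : ∀ i ∈ I, (S i).card ≤ k) (hI : I.Nonempty) {m : ℕ} (hm : 2 ^ m ≤ k)
    {R : ℝ} (hR0 : 0 < R) (hR : 8 * (Fintype.card κ : ℝ) ≤ R)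
    (hsp : ∀ T : Finset X, ((I.filter (fun i => T ⊆ S i)).card : ℝ) * R ^ T.card ≤ I.card)
    (hcol : ∀ s < m + 1, ∀ u < s, col u ≠ col s) :
    ((univ.filter (fun c : X → κ => (st S I k (cls c col) (m + 1)).2 = ∅)).card : ℝ) ≤
      (Fintype.card (X → κ) : ℝ) * (8 * Fintype.card κ / R) := by
  classical
  set M : ℝ := (Fintype.card κ : ℝ) with hM
  have hM0 : 0 ≤ M := by positivity
  have hI0 : (0:ℝ) < I.card := by exact_mod_cast hI.card_pos
  have hq : 0 ≤ 4 * M / R := by positivity
  have hq2 : 4 * M / R ≤ 1 / 2 := by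
    rw [div_le_iff₀ hR0]
    linarith
  -- the indices which die
  have tel : ∀ c : X → κ, ∀ n : ℕ,
      ∑ s ∈ range n, (((st S I k (cls c col) s).2 \ (st S I k (cls c col) (s + 1)).2).card : ℝ) =
        I.card - (st S I k (cls c col) n).2.card := by
    intro c n
    induction n with
    | zero => simp [st]
    | succ n ih =>
      rw [sum_range_succ, ih, card_sdiff_of_subset (st_anti n),
        Nat.cast_sub (card_le_card (st_anti n))]
      ring
  have h1 : ((univ.filter (fun c : X → κ => (st S I k (cls c col) (m + 1)).2 = ∅)).card : ℝ) *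
      I.card ≤ ∑ c : X → κ, ∑ s ∈ range (m + 1),
        (((st S I k (cls c col) s).2 \ (st S I k (cls c col) (s + 1)).2).card : ℝ) := by
    rw [← nsmul_eq_mul, ← sum_const]
    calc ∑ c ∈ univ.filter (fun c : X → κ => (st S I k (cls c col) (m + 1)).2 = ∅), (I.card : ℝ)
        = ∑ c ∈ univ.filter (fun c : X → κ => (st S I k (cls c col) (m + 1)).2 = ∅),
          ∑ s ∈ range (m + 1),
            (((st S I k (cls c col) s).2 \ (st S I k (cls c col) (s + 1)).2).card : ℝ) := by
          refine sum_congr rfl fun c hc => ?_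
          rw [tel, (mem_filter.1 hc).2]
          simp
      _ ≤ _ := sum_le_sum_of_subset_of_nonneg (filter_subset _ _) fun _ _ _ =>
          sum_nonneg fun _ _ => by positivity
  have h2 : ∑ c : X → κ, ∑ s ∈ range (m + 1),
        (((st S I k (cls c col) s).2 \ (st S I k (cls c col) (s + 1)).2).card : ℝ) ≤
      (Fintype.card (X → κ) : ℝ) * I.card * (2 * (4 * M / R)) := by
    rw [sum_comm]
    calc _ ≤ ∑ s ∈ range (m + 1), (Fintype.card (X → κ) : ℝ) * I.card *
          (4 * M / R) ^ (k / 2 ^ (s + 1) + 1) := by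
          refine sum_le_sum fun s hs => ?_
          exact sum_dead_le hS (by linarith) hR0 hsp (hcol s (mem_range.1 hs))
      _ = (Fintype.card (X → κ) : ℝ) * I.card *
          ∑ s ∈ range (m + 1), (4 * M / R) ^ (k / 2 ^ (s + 1) + 1) := by rw [mul_sum]
      _ ≤ _ := mul_le_mul_of_nonneg_left (geom_le hm hq hq2) (by positivity)
  have h3 := h1.trans h2
  have h4 : (Fintype.card (X → κ) : ℝ) * I.card * (2 * (4 * M / R)) =
      (Fintype.card (X → κ) : ℝ) * (8 * M / R) * I.card := by ring
  rw [h4] at h3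
  exact le_of_mul_le_mul_right h3 hI0

end colours

/-- **Spread lemma.** A spread indexed family of non-empty sets with at most `k` elements contains
`r` pairwise disjoint members. -/
theorem exists_disjoint {X ι : Type*} [DecidableEq X] [DecidableEq ι] [Fintype X]
    {S : ι → Finset X} {I : Finset ι} {k r : ℕ} (hk : 0 < k)
    (hS : ∀ i ∈ I, (S i).card ≤ k) (hI : I.Nonempty) {R : ℝ}
    (hR : 8 * (r:ℝ) ^ 2 * (Nat.log 2 k + 1) < R)
    (hsp : ∀ T : Finset X, ((I.filter (fun i => T ⊆ S i)).card : ℝ) * R ^ T.card ≤ I.card) :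
    ∃ f : Fin r → ι, (∀ j, f j ∈ I) ∧ ∀ j j', j ≠ j' → Disjoint (S (f j)) (S (f j')) := by
  classical
  rcases Nat.eq_zero_or_pos r with hr | hr
  · subst hr
    exact ⟨fun j => j.elim0, fun j => j.elim0, fun j => j.elim0⟩
  set m := Nat.log 2 k with hm
  have hm1 : 2 ^ m ≤ k := Nat.pow_log_le_self 2 hk.ne'
  have hm2 : k < 2 ^ (m + 1) := Nat.lt_pow_succ_log_self (by norm_num) k
  have hr0 : (0:ℝ) < r := by exact_mod_cast hr
  have hr1 : (1:ℝ) ≤ r := by exact_mod_cast hr
  have hR0 : 0 < R := lt_of_le_of_lt (by positivity) hR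
  let κ := Fin r × Fin (m + 1)
  have hκ : (Fintype.card κ : ℝ) = r * (m + 1) := by simp [κ]
  let col : Fin r → ℕ → κ := fun j u => (j, ⟨u % (m + 1), Nat.mod_lt _ (Nat.succ_pos m)⟩)
  have hcol : ∀ j : Fin r, ∀ s < m + 1, ∀ u < s, col j u ≠ col j s := by
    intro j s hs u hu h
    have := congrArg (fun x : κ => (x.2 : ℕ)) h
    simp only [col] at this
    rw [Nat.mod_eq_of_lt hs, Nat.mod_eq_of_lt (hu.trans hs)] at this
    omega
  have hbad : ∀ j : Fin r,
      ((univ.filter (fun c : X → κ => (st S I k (cls c (col j)) (m + 1)).2 = ∅)).card : ℝ) ≤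
      (Fintype.card (X → κ) : ℝ) * (8 * Fintype.card κ / R) := by
    intro j
    refine card_dead_le hS hI hm1 hR0 ?_ hsp (hcol j)
    rw [hκ]
    refine le_trans ?_ hR.le
    have : (r:ℝ) ≤ r ^ 2 := by nlinarith
    have h2 : (0:ℝ) ≤ m + 1 := by positivity
    nlinarith
  have hex : ∃ c : X → κ, ∀ j : Fin r, (st S I k (cls c (col j)) (m + 1)).2 ≠ ∅ := by
    by_contra hcon
    push Not at hcon
    have h1 : (univ : Finset (X → κ)) ⊆ (univ : Finset (Fin r)).biUnion
        (fun j => univ.filter (fun c : X → κ => (st S I k (cls c (col j)) (m + 1)).2 = ∅)) := by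
      intro c _
      obtain ⟨j, hj⟩ := hcon c
      exact mem_biUnion.2 ⟨j, mem_univ _, mem_filter.2 ⟨mem_univ _, hj⟩⟩
    have h2 : ((univ : Finset (X → κ)).card : ℝ) ≤ ∑ j : Fin r,
        ((univ.filter (fun c : X → κ => (st S I k (cls c (col j)) (m + 1)).2 = ∅)).card : ℝ) := by
      exact_mod_cast (card_le_card h1).trans card_biUnion_le
    have h3 := h2.trans (sum_le_sum fun j _ => hbad j)
    rw [sum_const, card_univ, nsmul_eq_mul, card_univ, Fintype.card_fin, hκ] at h3
    have : Nonempty κ := ⟨(⟨0, hr⟩, 0)⟩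
    have hpos : (0:ℝ) < Fintype.card (X → κ) := by exact_mod_cast Fintype.card_pos
    have h4 : (r:ℝ) * (8 * (r * (m + 1)) / R) < 1 := by
      rw [mul_div_assoc', div_lt_one hR0]
      calc (r:ℝ) * (8 * (r * (m + 1))) = 8 * (r:ℝ) ^ 2 * (m + 1) := by ring
        _ < R := hR
    nlinarith
  obtain ⟨c, hc⟩ := hex
  have hcov : ∀ j : Fin r, ∃ i ∈ I, S i ⊆ (range (m + 1)).biUnion (cls c (col j)) := by
    intro j
    obtain ⟨i, hi⟩ := nonempty_iff_ne_empty.2 (hc j)
    obtain ⟨i', hi', hsub⟩ := st_cover hi
    have h0 : ((st S I k (cls c (col j)) (m + 1)).1 i).card ≤ k / 2 ^ (m + 1) := st_card hS hi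
    rw [Nat.div_eq_of_lt hm2, Nat.le_zero, card_eq_zero] at h0
    rw [h0, empty_union] at hsub
    exact ⟨i', hi', hsub⟩
  choose f hf hf' using hcov
  refine ⟨f, hf, fun j j' hjj => ?_⟩
  rw [disjoint_left]
  intro x hx hx'
  have h1 := hf' j hx
  have h2 := hf' j' hx'
  rw [mem_biUnion] at h1 h2
  obtain ⟨u, _, hu⟩ := h1
  obtain ⟨v, _, hv⟩ := h2
  rw [mem_cls] at hu hv
  rw [hu] at hv
  exact hjj (congrArg Prod.fst hv)

end Pool.Agent.Helper10.GcdSun
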