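import Mathlib
import Pool.Agent.Helper10.GcdSun.Spread

/-!
Bound for sets of integers without gcd-sunflowers.
-/

open Finset

namespace Pool.Agent.Helper10.GcdSun

/-- The spread lemma without finiteness of the ground set. -/
theorem exists_disjoint' {X ι : Type*} [DecidableEq X] [DecidableEq ι]
    {S : ι → Finset X} {I : Finset ι} {k r : ℕ} (hk : 0 < k)
    (hS : ∀ i ∈ I, (S i).card ≤ k) (hI : I.Nonempty) {R : ℝ}
    (hR : 8 * (r:ℝ) ^ 2 * (Nat.log 2 k + 1) < R)
    (hsp : ∀ T : Finset X, ((I.filter (fun i => T ⊆ S i)).card : ℝ) * R ^ T.card ≤ I.card) :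
    ∃ f : Fin r → ι, (∀ j, f j ∈ I) ∧ ∀ j j', j ≠ j' → Disjoint (S (f j)) (S (f j')) := by
  classical
  let U := I.biUnion S
  let S' : ι → Finset U := fun i => univ.filter (fun x => x.1 ∈ S i)
  have hmap : ∀ (T : Finset U) (i : ι), T ⊆ S' i ↔ T.map (Function.Embedding.subtype _) ⊆ S i := by
    intro T i
    constructor
    · intro h x hx
      rw [mem_map] at hx
      obtain ⟨y, hy, rfl⟩ := hx
      exact (mem_filter.1 (h hy)).2
    · intro h x hx
      refine mem_filter.2 ⟨mem_univ _, h ?_⟩
      exact mem_map.2 ⟨x, hx, rfl⟩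
  have h1 : ∀ i ∈ I, (S' i).card ≤ k := by
    intro i hi
    refine le_trans ?_ (hS i hi)
    refine card_le_card_of_injOn (fun x => x.1) ?_ ?_
    · intro x hx
      exact (mem_filter.1 (mem_coe.1 hx)).2
    · intro x _ y _ h
      exact Subtype.ext h
  have h2 : ∀ T : Finset U, ((I.filter (fun i => T ⊆ S' i)).card : ℝ) * R ^ T.card ≤ I.card := by
    intro T
    have := hsp (T.map (Function.Embedding.subtype _))
    rw [card_map] at this
    simp only [hmap]
    exact this
  obtain ⟨f, hf, hd⟩ := exists_disjoint hk h1 hI hR h2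
  refine ⟨f, hf, fun j j' hjj => ?_⟩
  rw [disjoint_left]
  intro x hx hx'
  have hxU : x ∈ U := mem_biUnion.2 ⟨_, hf j, hx⟩
  have h3 : (⟨x, hxU⟩ : U) ∈ S' (f j) := mem_filter.2 ⟨mem_univ _, hx⟩
  exact disjoint_left.1 (hd j j' hjj) h3 (mem_filter.2 ⟨mem_univ _, hx'⟩)

/-- the elements of `A` which have the same exponents as `d` at all primes dividing `d` -/
def dset (A : Finset ℕ) (d : ℕ) : Finset ℕ :=
  A.filter (fun a => ∀ p ∈ d.primeFactors, a.factorization p = d.factorization p)

/-- the weight of `d` -/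
noncomputable def wt (C : ℝ) (d : ℕ) : ℝ := d.factorization.prod (fun _ e => C * (e:ℝ) ^ 2)

theorem wt_mul (C : ℝ) {a b : ℕ} (h : Nat.Coprime a b) : wt C (a * b) = wt C a * wt C b := by
  unfold wt
  rw [Nat.factorization_mul_of_coprime h,
    Finsupp.prod_add_index_of_disjoint (Nat.Coprime.disjoint_primeFactors h)]

theorem wt_one (C : ℝ) : wt C 1 = 1 := by simp [wt]

theorem wt_prime_pow (C : ℝ) {p e : ℕ} (hp : p.Prime) (he : e ≠ 0) :
    wt C (p ^ e) = C * (e:ℝ) ^ 2 := by
  unfold wt
  rw [hp.factorization_pow, Finsupp.prod]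
  have : (Finsupp.single p e).support = {p} := by
    ext q
    simp [he, eq_comm]
  rw [this, prod_singleton, Finsupp.single_eq_same]

theorem wt_pos {C : ℝ} (hC : 0 < C) (d : ℕ) : 0 < wt C d := by
  unfold wt Finsupp.prod
  refine prod_pos fun p hp => ?_
  have : (0:ℝ) < d.factorization p := by
    exact_mod_cast Nat.pos_of_ne_zero (Finsupp.mem_support_iff.1 hp)
  positivity

theorem mem_dset {A : Finset ℕ} {d a : ℕ} :
    a ∈ dset A d ↔ a ∈ A ∧ ∀ p ∈ d.primeFactors, a.factorization p = d.factorization p :=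
  mem_filter

theorem dvd_of_mem {A : Finset ℕ} (hA : ∀ a ∈ A, 0 < a) {d a : ℕ} (hd : 0 < d)
    (h : a ∈ dset A d) : d ∣ a := by
  rw [mem_dset] at h
  rw [← Nat.factorization_le_iff_dvd hd.ne' (hA a h.1).ne', Finsupp.le_def]
  intro p
  by_cases hp : p ∈ d.primeFactors
  · rw [h.2 p hp]
  · rw [Finsupp.notMem_support_iff.1 (by simpa using hp)]
    exact Nat.zero_le _

theorem dset_mul {A : Finset ℕ} {d p f : ℕ} (hd : 0 < d) (hp : p.Prime) (hf : f ≠ 0)
    (hpd : ¬ p ∣ d) {a : ℕ} :
    a ∈ dset A (d * p ^ f) ↔ a ∈ dset A d ∧ a.factorization p = f := by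
  have hpf : p ^ f ≠ 0 := pow_ne_zero _ hp.ne_zero
  have hfac : ∀ q, (d * p ^ f).factorization q = d.factorization q + if p = q then f else 0 := by
    intro q
    rw [Nat.factorization_mul hd.ne' hpf, hp.factorization_pow]
    simp [Finsupp.single_apply]
  have hdp : d.factorization p = 0 := Nat.factorization_eq_zero_of_not_dvd hpd
  have hpf2 : (d * p ^ f).primeFactors = d.primeFactors ∪ {p} := by
    rw [Nat.primeFactors_mul hd.ne' hpf, Nat.primeFactors_prime_pow hf hp]
  rw [mem_dset, mem_dset, hpf2]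
  constructor
  · rintro ⟨h1, h2⟩
    refine ⟨⟨h1, fun q hq => ?_⟩, ?_⟩
    · rw [h2 q (mem_union_left _ hq), hfac, if_neg, add_zero]
      rintro rfl
      exact hpd (Nat.dvd_of_mem_primeFactors hq)
    · rw [h2 p (mem_union_right _ (mem_singleton_self p)), hfac, hdp, if_pos rfl, zero_add]
  · rintro ⟨⟨h1, h2⟩, h3⟩
    refine ⟨h1, fun q hq => ?_⟩
    rw [hfac]
    rcases mem_union.1 hq with hq | hq
    · rw [h2 q hq, if_neg, add_zero]
      rintro rfl
      exact hpd (Nat.dvd_of_mem_primeFactors hq)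
    · rw [mem_singleton] at hq
      subst hq
      rw [if_pos rfl, hdp, zero_add, h3]

/-- the counting of the elements whose support contains `T` -/
theorem spread_aux {A : Finset ℕ} (hA : ∀ a ∈ A, 0 < a) {d : ℕ} (hd : 0 < d) {R : ℝ} (hR : 0 < R)
    (hmax : ∀ e, 0 < e → Nat.Coprime d e →
      wt (2 * R) e * ((dset A (d * e)).card : ℝ) ≤ (dset A d).card) (T : Finset ℕ) :
    ∀ e, 0 < e → Nat.Coprime d e → (∀ p ∈ T, p.Prime → ¬ p ∣ d * e) →
      wt (2 * R) e * ((((dset A (d * e)).filter (fun a => T ⊆ a.primeFactors)).card : ℝ) *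
        R ^ T.card) ≤ (dset A d).card := by
  classical
  induction T using Finset.induction_on with
  | empty =>
    intro e he hc _
    simpa using hmax e he hc
  | insert p T hpT ih =>
    intro e he hc hT
    have hwt := wt_pos (C := 2 * R) (by positivity) e
    by_cases hp : p.Prime
    swap
    · have : (dset A (d * e)).filter (fun a => insert p T ⊆ a.primeFactors) = ∅ := by
        rw [filter_eq_empty_iff]
        intro a _ h
        exact hp (Nat.prime_of_mem_primeFactors (h (mem_insert_self p T)))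
      rw [this]
      simp
    have hpde : ¬ p ∣ d * e := hT p (mem_insert_self p T) hp
    have hpd : ¬ p ∣ d := fun h => hpde (h.mul_right e)
    have hpe : ¬ p ∣ e := fun h => hpde (h.mul_left d)
    -- bound for the exponents
    set K := (A.sup id) + 1 with hK
    have hKb : ∀ a ∈ A, a.factorization p < K := by
      intro a ha
      have h1 : a.factorization p < a := Nat.factorization_lt p (hA a ha).ne'
      have h2 : a ≤ A.sup id := le_sup (f := id) ha
      omega
    have hsub : (dset A (d * e)).filter (fun a => insert p T ⊆ a.primeFactors) ⊆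
        (Ioo 0 K).biUnion (fun f =>
          (dset A (d * (e * p ^ f))).filter (fun a => T ⊆ a.primeFactors)) := by
      intro a ha
      rw [mem_filter] at ha
      obtain ⟨ha1, ha2⟩ := ha
      have hpa : p ∈ a.primeFactors := ha2 (mem_insert_self p T)
      have haA : a ∈ A := (mem_dset.1 ha1).1
      have hf0 : a.factorization p ≠ 0 := by
        rw [← Finsupp.mem_support_iff]
        simpa using hpa
      rw [mem_biUnion]
      refine ⟨a.factorization p, mem_Ioo.2 ⟨Nat.pos_of_ne_zero hf0, hKb a haA⟩,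
        mem_filter.2 ⟨?_, (subset_insert p T).trans ha2⟩⟩
      rw [← mul_assoc, dset_mul (by positivity) hp hf0 hpde]
      exact ⟨ha1, rfl⟩
    have h1 : ((((dset A (d * e)).filter
        (fun a => insert p T ⊆ a.primeFactors)).card : ℕ) : ℝ) ≤
        ∑ f ∈ Ioo 0 K, (((dset A (d * (e * p ^ f))).filter
          (fun a => T ⊆ a.primeFactors)).card : ℝ) := by
      exact_mod_cast (card_le_card hsub).trans card_biUnion_le
    have h2 : ∀ f ∈ Ioo 0 K, (((dset A (d * (e * p ^ f))).filter
          (fun a => T ⊆ a.primeFactors)).card : ℝ) ≤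
          (dset A d).card / (wt (2 * R) e * R ^ T.card) * (1 / (2 * R)) * ((f:ℝ) ^ 2)⁻¹ := by
      intro f hf
      have hf0 : f ≠ 0 := (mem_Ioo.1 hf).1.ne'
      have hcop : Nat.Coprime e (p ^ f) :=
        (Nat.Coprime.pow_left f ((Nat.Prime.coprime_iff_not_dvd hp).2 hpe)).symm
      have hcop2 : Nat.Coprime d (p ^ f) :=
        (Nat.Coprime.pow_left f ((Nat.Prime.coprime_iff_not_dvd hp).2 hpd)).symm
      have h3 := ih (e * p ^ f) (Nat.mul_pos he (pow_pos hp.pos f))
        (Nat.Coprime.mul_right hc hcop2) (by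
          intro q hq hqp hdvd
          rw [← mul_assoc] at hdvd
          rcases (Nat.Prime.dvd_mul hqp).1 hdvd with h | h
          · exact hT q (mem_insert_of_mem hq) hqp h
          · have := (Nat.prime_dvd_prime_iff_eq hqp hp).1 (hqp.dvd_of_dvd_pow h)
            exact hpT (this ▸ hq))
      rw [wt_mul _ hcop, wt_prime_pow _ hp hf0] at h3
      have hf2 : (0:ℝ) < f := by exact_mod_cast Nat.pos_of_ne_zero hf0
      rw [div_mul_eq_mul_div, ← div_eq_mul_inv, div_div, le_div_iff₀ (by positivity)]
      calc _ = (wt (2 * R) e * (2 * R * (f:ℝ) ^ 2) * ((((dset A (d * (e * p ^ f))).filter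
          (fun a => T ⊆ a.primeFactors)).card : ℝ) * R ^ T.card)) * (1 / (2 * R)) := by
            field_simp
        _ ≤ _ := mul_le_mul_of_nonneg_right h3 (by positivity)
    have h3 := h1.trans (sum_le_sum h2)
    rw [← mul_sum] at h3
    have h4 := sum_Ioo_inv_sq_le (α := ℝ) 0 K
    rw [card_insert_of_notMem hpT, pow_succ]
    have h5 : ((((dset A (d * e)).filter
        (fun a => insert p T ⊆ a.primeFactors)).card : ℕ) : ℝ) ≤
        (dset A d).card / (wt (2 * R) e * R ^ T.card) * (1 / (2 * R)) * 2 := by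
      refine h3.trans (mul_le_mul_of_nonneg_left ?_ (by positivity))
      simpa using h4
    have h6 : (dset A d).card / (wt (2 * R) e * R ^ T.card) * (1 / (2 * R)) * 2 =
        (dset A d).card / (wt (2 * R) e * (R ^ T.card * R)) := by
      field_simp
    rw [h6, le_div_iff₀ (by positivity)] at h5
    linarith

/-- `S` is a gcd-sunflower: there is `d > 0` such that `gcd(a, b) = d` for all distinct `a`, `b` in
`S`, and every `a` in `S` is `d * b` with `b` coprime to `d`. -/
def GcdSunflower (S : Finset ℕ) : Prop :=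
  ∃ d : ℕ, 0 < d ∧ (∀ a ∈ S, ∀ b ∈ S, a ≠ b → Nat.gcd a b = d) ∧
    ∀ a ∈ S, ∃ b : ℕ, a = d * b ∧ Nat.Coprime b d

theorem main_bound {A : Finset ℕ} {r m : ℕ} (hA : ∀ a ∈ A, 0 < a)
    (hm : ∀ a ∈ A, a.primeFactors.card ≤ m) (hne : A.Nonempty)
    (hfree : ¬ ∃ S : Finset ℕ, S ⊆ A ∧ S.card = r ∧ GcdSunflower S) :
    ∃ a ∈ A, (A.card : ℝ) ≤ wt (34 * (r:ℝ) ^ 2 * (Nat.log 2 m + 1)) a := by
  classical
  rcases Nat.eq_zero_or_pos r with hr | hr
  · subst hr
    exact absurd ⟨∅, empty_subset A, card_empty, 1, one_pos, by simp, by simp⟩ hfree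
  have hr1 : (1:ℝ) ≤ r := by exact_mod_cast hr
  by_contra hcon
  push Not at hcon
  set R : ℝ := 17 * (r:ℝ) ^ 2 * (Nat.log 2 m + 1) with hRdef
  have hCR : 34 * (r:ℝ) ^ 2 * (Nat.log 2 m + 1) = 2 * R := by rw [hRdef]; ring
  rw [hCR] at hcon
  have hL : (1:ℝ) ≤ Nat.log 2 m + 1 := by
    have : (0:ℝ) ≤ Nat.log 2 m := by positivity
    linarith
  have hR : 0 < R := by positivity
  -- the maximising unitary divisor
  obtain ⟨d, hdm, hdmax⟩ := exists_max_image (A.biUnion Nat.divisors)
    (fun d => wt (2 * R) d * ((dset A d).card : ℝ)) (by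
      obtain ⟨a, ha⟩ := hne
      exact ⟨1, mem_biUnion.2 ⟨a, ha, Nat.one_mem_divisors.2 (hA a ha).ne'⟩⟩)
  obtain ⟨a0, ha0, hda0⟩ := mem_biUnion.1 hdm
  have hd : 0 < d := Nat.pos_of_mem_divisors hda0
  have hwd := wt_pos (C := 2 * R) (by positivity) d
  have hmax : ∀ e, 0 < e → Nat.Coprime d e →
      wt (2 * R) e * ((dset A (d * e)).card : ℝ) ≤ (dset A d).card := by
    intro e he hc
    rcases (dset A (d * e)).eq_empty_or_nonempty with h | ⟨a, ha⟩
    · rw [h]
      simp
    · have haA := (mem_dset.1 ha).1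
      have hdvd := dvd_of_mem hA (Nat.mul_pos hd he) ha
      have := hdmax (d * e) (mem_biUnion.2 ⟨a, haA, Nat.mem_divisors.2 ⟨hdvd, (hA a haA).ne'⟩⟩)
      rw [wt_mul _ hc, mul_assoc] at this
      exact le_of_mul_le_mul_left this hwd
  have hD : (A.card : ℝ) ≤ wt (2 * R) d * ((dset A d).card : ℝ) := by
    obtain ⟨a, ha⟩ := hne
    have := hdmax 1 (mem_biUnion.2 ⟨a, ha, Nat.one_mem_divisors.2 (hA a ha).ne'⟩)
    rw [wt_one, one_mul] at this
    refine le_trans ?_ this
    have h1 : dset A 1 = A := by simp [dset]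
    rw [h1]
  set I := (dset A d).erase d with hI
  have hIA : ∀ a ∈ I, a ∈ dset A d := fun a ha => mem_of_mem_erase ha
  have hInz : I.Nonempty := by
    rw [nonempty_iff_ne_empty]
    intro h0
    have h1 : dset A d ⊆ {d} := by
      intro a ha
      by_contra hne
      have : a ∈ I := mem_erase.2 ⟨fun h => hne (mem_singleton.2 h), ha⟩
      rw [h0] at this
      exact notMem_empty _ this
    rcases subset_singleton_iff.1 h1 with h | h
    · rw [h] at hD
      have : (0:ℝ) < A.card := by exact_mod_cast hne.card_pos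
      simp at hD
      rw [hD] at this
      simp at this
    · rw [h] at hD
      have hdA : d ∈ A := (mem_dset.1 (h ▸ mem_singleton_self d : d ∈ dset A d)).1
      have := hcon d hdA
      simp at hD
      linarith
  -- the supports
  have hSne : ∀ a ∈ I, (a.primeFactors \ d.primeFactors).Nonempty := by
    intro a ha
    by_contra h0
    rw [not_nonempty_iff_eq_empty, sdiff_eq_empty_iff_subset] at h0
    have ha' := hIA a ha
    refine (mem_erase.1 ha).1 (Nat.eq_of_factorization_eq (hA a (mem_dset.1 ha').1).ne' hd.ne' ?_)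
    intro p
    by_cases hp : p ∈ d.primeFactors
    · exact (mem_dset.1 ha').2 p hp
    · have h1 : p ∉ a.primeFactors := fun h => hp (h0 h)
      rw [Finsupp.notMem_support_iff.1 (by simpa using h1 : p ∉ a.factorization.support),
        Finsupp.notMem_support_iff.1 (by simpa using hp : p ∉ d.factorization.support)]
  have hScard : ∀ a ∈ I, (a.primeFactors \ d.primeFactors).card ≤ m := fun a ha =>
    (card_le_card sdiff_subset).trans (hm a (mem_dset.1 (hIA a ha)).1)
  have hm0 : 0 < m := by
    obtain ⟨a, ha⟩ := hInz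
    exact (hSne a ha).card_pos.trans_le (hScard a ha)
  have hDI : ((dset A d).card : ℝ) ≤ 2 * I.card := by
    have h1 : (dset A d).card ≤ I.card + 1 := by
      have h0 : dset A d ⊆ insert d I := fun x hx => by
        by_cases h : x = d
        · rw [h]
          exact mem_insert_self _ _
        · exact mem_insert_of_mem (mem_erase.2 ⟨h, hx⟩)
      exact (card_le_card h0).trans (card_insert_le _ _)
    have h2 : 1 ≤ I.card := hInz.card_pos
    have h3 : (dset A d).card ≤ 2 * I.card := by omega
    exact_mod_cast h3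
  have hsp : ∀ T : Finset ℕ,
      ((I.filter (fun a => T ⊆ a.primeFactors \ d.primeFactors)).card : ℝ) * (R / 2) ^ T.card ≤
        I.card := by
    intro T
    rcases T.eq_empty_or_nonempty with hT | hT
    · rw [hT, card_empty, pow_zero, mul_one]
      exact_mod_cast card_le_card (filter_subset _ _)
    by_cases hTd : Disjoint T d.primeFactors
    · have h1 := spread_aux hA hd hR hmax T 1 one_pos (Nat.coprime_one_right d) (by
        intro p hp hpp h
        rw [mul_one] at h
        exact disjoint_left.1 hTd hp (Nat.mem_primeFactors.2 ⟨hpp, h, hd.ne'⟩))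
      rw [wt_one, one_mul, mul_one] at h1
      have h2 : ((I.filter (fun a => T ⊆ a.primeFactors \ d.primeFactors)).card : ℝ) ≤
          ((dset A d).filter (fun a => T ⊆ a.primeFactors)).card := by
        refine Nat.cast_le.2 (card_le_card ?_)
        intro a ha
        rw [mem_filter] at ha ⊢
        exact ⟨hIA a ha.1, ha.2.trans sdiff_subset⟩
      have h3 : (2:ℝ) ≤ 2 ^ T.card := by
        calc (2:ℝ) = 2 ^ 1 := by norm_num
          _ ≤ 2 ^ T.card := pow_le_pow_right₀ (by norm_num) hT.card_pos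
      have h4 : (0:ℝ) < 2 ^ T.card := by positivity
      rw [div_pow, mul_div_assoc', div_le_iff₀ h4]
      calc _ ≤ (((dset A d).filter (fun a => T ⊆ a.primeFactors)).card : ℝ) * R ^ T.card :=
            mul_le_mul_of_nonneg_right h2 (by positivity)
        _ ≤ (dset A d).card := h1
        _ ≤ 2 * I.card := hDI
        _ ≤ 2 ^ T.card * I.card := mul_le_mul_of_nonneg_right h3 (by positivity)
        _ = I.card * 2 ^ T.card := mul_comm _ _
    · have : I.filter (fun a => T ⊆ a.primeFactors \ d.primeFactors) = ∅ := by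
        rw [filter_eq_empty_iff]
        intro a _ h
        exact hTd (disjoint_left.2 fun x hx hx' => (mem_sdiff.1 (h hx)).2 hx')
      rw [this]
      simp
  obtain ⟨f, hf, hdis⟩ := exists_disjoint' (S := fun a => a.primeFactors \ d.primeFactors)
    (I := I) (k := m) (r := r) hm0 hScard hInz (R := R / 2) (by
      rw [hRdef]
      have : (0:ℝ) < (r:ℝ) ^ 2 * (Nat.log 2 m + 1) := by positivity
      nlinarith) hsp
  have hinj : Function.Injective f := by
    intro j j' hjj
    by_contra hne
    have h1 := hdis j j' hne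
    rw [← hjj, disjoint_self] at h1
    exact (hSne _ (hf j)).ne_empty h1
  refine hfree ⟨univ.image f, ?_, ?_, d, hd, ?_, ?_⟩
  · intro a ha
    obtain ⟨j, _, rfl⟩ := mem_image.1 ha
    exact (mem_dset.1 (hIA _ (hf j))).1
  · rw [card_image_of_injective _ hinj, card_univ, Fintype.card_fin]
  · intro a ha b hb hab
    obtain ⟨j, _, rfl⟩ := mem_image.1 ha
    obtain ⟨j', _, rfl⟩ := mem_image.1 hb
    have hjj : j ≠ j' := fun h => hab (h ▸ rfl)
    have h1 := hIA _ (hf j)
    have h2 := hIA _ (hf j')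
    refine Nat.eq_of_factorization_eq ?_ hd.ne' ?_
    · exact Nat.gcd_ne_zero_left (hA _ (mem_dset.1 h1).1).ne'
    · intro p
      rw [Nat.factorization_gcd (hA _ (mem_dset.1 h1).1).ne' (hA _ (mem_dset.1 h2).1).ne',
        Finsupp.inf_apply]
      by_cases hp : p ∈ d.primeFactors
      · rw [(mem_dset.1 h1).2 p hp, (mem_dset.1 h2).2 p hp, inf_idem]
      · rw [Finsupp.notMem_support_iff.1 (by simpa using hp : p ∉ d.factorization.support)]
        by_cases hp1 : p ∈ (f j).primeFactors
        · have hp2 : p ∉ (f j').primeFactors := fun h =>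
            disjoint_left.1 (hdis j j' hjj) (mem_sdiff.2 ⟨hp1, hp⟩) (mem_sdiff.2 ⟨h, hp⟩)
          rw [Finsupp.notMem_support_iff.1 (by simpa using hp2 :
            p ∉ (f j').factorization.support)]
          exact Nat.min_zero _
        · rw [Finsupp.notMem_support_iff.1 (by simpa using hp1 :
            p ∉ (f j).factorization.support)]
          exact Nat.zero_min _
  · intro a ha
    obtain ⟨j, _, rfl⟩ := mem_image.1 ha
    have h1 := hIA _ (hf j)
    obtain ⟨b, hb⟩ := dvd_of_mem hA hd h1
    refine ⟨b, hb, ?_⟩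
    have hfj := hA _ (mem_dset.1 h1).1
    have hb0 : b ≠ 0 := by
      rintro rfl
      rw [mul_zero] at hb
      omega
    rw [Nat.coprime_iff_gcd_eq_one, Nat.eq_one_iff_not_exists_prime_dvd]
    intro p hp hpd
    have hpb : p ∣ b := hpd.trans (Nat.gcd_dvd_left b d)
    have hpd' : p ∣ d := hpd.trans (Nat.gcd_dvd_right b d)
    have h2 := (mem_dset.1 h1).2 p (Nat.mem_primeFactors.2 ⟨hp, hpd', hd.ne'⟩)
    rw [hb, Nat.factorization_mul hd.ne' hb0, Finsupp.add_apply] at h2
    have h3 := hp.factorization_pos_of_dvd hb0 hpb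
    omega

end Pool.Agent.Helper10.GcdSun
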