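import Mathlib
import Pool.Agent.Helper10.GcdSun.Bound

/-!
Corollaries of the main bound: sets with `Ω(a) = k`, and subsets of `{1, …, N}`.
-/

open Finset Real

namespace Pool.Agent.Helper10.GcdSun

theorem sq_le_four_pow (e : ℕ) : (e:ℝ) ^ 2 ≤ 4 ^ e := by
  have h : (e:ℝ) ≤ 2 ^ e := by exact_mod_cast Nat.lt_two_pow_self.le
  calc (e:ℝ) ^ 2 ≤ (2 ^ e) ^ 2 := pow_le_pow_left₀ (by positivity) h 2
    _ = 4 ^ e := by rw [← pow_mul, mul_comm, pow_mul]; norm_num

theorem wt_eq (C : ℝ) (a : ℕ) :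
    wt C a = ∏ p ∈ a.primeFactors, C * (a.factorization p : ℝ) ^ 2 := rfl

theorem wt_le (C : ℝ) (hC : 0 ≤ C) (a : ℕ) :
    wt C a ≤ C ^ a.primeFactors.card * 4 ^ a.primeFactorsList.length := by
  have h1 : a.primeFactorsList.length = ∑ p ∈ a.primeFactors, a.factorization p := by
    have := ArithmeticFunction.cardFactors_eq_sum_factorization (n := a)
    rw [ArithmeticFunction.cardFactors_apply] at this
    rw [this, Finsupp.sum]
    rfl
  rw [wt_eq, prod_mul_distrib, prod_const, h1, ← prod_pow_eq_pow_sum]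
  refine mul_le_mul_of_nonneg_left ?_ (by positivity)
  exact prod_le_prod (fun _ _ => by positivity) fun p _ => sq_le_four_pow _

/-- estimate of the weight by a parameter `y` -/
theorem wt_le_rpow {C : ℝ} (hC : 1 ≤ C) {a N : ℕ} (ha : 0 < a) (haN : a ≤ N) (hN : 2 ≤ N) {y : ℝ}
    (hy : 1 < y) :
    wt C a ≤ (C * (Real.log N / Real.log 2) ^ 2) ^ y * (4 * C) ^ (Real.log N / Real.log y) := by
  have hlog2 : 0 < Real.log 2 := Real.log_pos (by norm_num)
  have hNr : (2:ℝ) ≤ N := by exact_mod_cast hN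
  have hlogN : Real.log 2 ≤ Real.log N := Real.log_le_log (by norm_num) hNr
  have hU1 : 1 ≤ Real.log N / Real.log 2 := (one_le_div hlog2).2 hlogN
  set U := C * (Real.log N / Real.log 2) ^ 2 with hU
  have hUone : 1 ≤ U := by
    rw [hU]
    exact one_le_mul_of_one_le_of_one_le hC (one_le_pow₀ hU1)
  have hexp : ∀ p ∈ a.primeFactors, (a.factorization p : ℝ) ≤ Real.log N / Real.log 2 := by
    intro p hp
    have hpp := Nat.prime_of_mem_primeFactors hp
    have h1 : p ^ a.factorization p ≤ N := (Nat.ordProj_le p ha.ne').trans haN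
    have h2 : 2 ^ a.factorization p ≤ N := (Nat.pow_le_pow_left hpp.two_le _).trans h1
    rw [le_div_iff₀ hlog2, ← Real.log_pow]
    exact Real.log_le_log (by positivity) (by exact_mod_cast h2)
  rw [wt_eq, ← prod_filter_mul_prod_filter_not a.primeFactors (fun p : ℕ => (p:ℝ) ≤ y)]
  refine mul_le_mul ?_ ?_ (prod_nonneg fun _ _ => by positivity) (by positivity)
  · -- small primes
    have h1 : ∏ p ∈ a.primeFactors.filter (fun p : ℕ => (p:ℝ) ≤ y),
        C * (a.factorization p : ℝ) ^ 2 ≤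
        U ^ (a.primeFactors.filter (fun p : ℕ => (p:ℝ) ≤ y)).card := by
      rw [← prod_const]
      refine prod_le_prod (fun _ _ => by positivity) fun p hp => ?_
      rw [hU]
      exact mul_le_mul_of_nonneg_left
        (pow_le_pow_left₀ (by positivity) (hexp p (mem_filter.1 hp).1) 2) (by positivity)
    refine h1.trans ?_
    rw [← Real.rpow_natCast]
    refine Real.rpow_le_rpow_of_exponent_le hUone ?_
    have h2 : a.primeFactors.filter (fun p : ℕ => (p:ℝ) ≤ y) ⊆ Icc 1 ⌊y⌋₊ := by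
      intro p hp
      rw [mem_filter] at hp
      exact mem_Icc.2 ⟨(Nat.prime_of_mem_primeFactors hp.1).one_lt.le,
        Nat.le_floor hp.2⟩
    have h3 := card_le_card h2
    rw [Nat.card_Icc] at h3
    calc (((a.primeFactors.filter (fun p : ℕ => (p:ℝ) ≤ y)).card : ℕ) : ℝ) ≤ (⌊y⌋₊ : ℝ) := by
          exact_mod_cast (by omega : (a.primeFactors.filter (fun p : ℕ => (p:ℝ) ≤ y)).card ≤ ⌊y⌋₊)
      _ ≤ y := Nat.floor_le (by linarith)
  · -- large primes
    set Q := a.primeFactors.filter (fun p : ℕ => ¬ (p:ℝ) ≤ y) with hQ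
    have hpos : ∀ p ∈ Q, a.factorization p ≠ 0 := by
      intro p hp
      have hp' := (mem_filter.1 hp).1
      rw [← Finsupp.mem_support_iff]
      exact hp'
    have h1 : ∏ p ∈ Q, C * (a.factorization p : ℝ) ^ 2 ≤
        (4 * C) ^ (∑ p ∈ Q, a.factorization p) := by
      rw [← prod_pow_eq_pow_sum]
      refine prod_le_prod (fun _ _ => by positivity) fun p hp => ?_
      rw [mul_pow, mul_comm]
      exact mul_le_mul (sq_le_four_pow _) (le_self_pow₀ hC (hpos p hp)) (by positivity)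
        (by positivity)
    refine h1.trans ?_
    rw [← Real.rpow_natCast]
    refine Real.rpow_le_rpow_of_exponent_le (by linarith) ?_
    have hlogy : 0 < Real.log y := Real.log_pos hy
    rw [le_div_iff₀ hlogy, ← Real.log_pow]
    refine Real.log_le_log (by positivity) ?_
    have h2 : ∏ p ∈ Q, p ^ a.factorization p ∣ a := by
      conv_rhs => rw [← Nat.prod_factorization_pow_eq_self ha.ne']
      exact prod_dvd_prod_of_subset _ _ _ (filter_subset _ _)
    have h3 : ∏ p ∈ Q, p ^ a.factorization p ≤ N := (Nat.le_of_dvd ha h2).trans haN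
    calc y ^ (∑ p ∈ Q, a.factorization p) = ∏ p ∈ Q, y ^ a.factorization p := by
          rw [prod_pow_eq_pow_sum]
      _ ≤ ∏ p ∈ Q, (p:ℝ) ^ a.factorization p := by
          refine prod_le_prod (fun _ _ => by positivity) fun p hp => ?_
          exact pow_le_pow_left₀ (by linarith) (not_le.1 (mem_filter.1 hp).2).le _
      _ ≤ N := by exact_mod_cast h3

theorem card_primeFactors_le_log {a N : ℕ} (ha : 0 < a) (haN : a ≤ N) :
    a.primeFactors.card ≤ Nat.log 2 N := by
  refine Nat.le_log_of_pow_le (by norm_num) ?_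
  have h1 : ∏ p ∈ a.primeFactors, p ≤ a := Nat.le_of_dvd ha (Nat.prod_primeFactors_dvd a)
  have h2 : 2 ^ a.primeFactors.card ≤ ∏ p ∈ a.primeFactors, p := by
    rw [← prod_const]
    exact prod_le_prod (fun _ _ => by norm_num) fun p hp =>
      (Nat.prime_of_mem_primeFactors hp).two_le
  exact h2.trans (h1.trans haN)

/-- the numerical estimate -/
theorem numeric (r : ℕ) (hr : 1 ≤ r) {ε : ℝ} (hε : 0 < ε) (hε1 : ε ≤ 1) :
    ∀ᶠ t : ℝ in Filter.atTop, ∀ B : ℝ, 1 ≤ B → B ≤ 102 * (r:ℝ) ^ 2 * t →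
      Real.exp ((1 - ε / 8) * t) * Real.log (B * (Real.exp t / Real.log 2) ^ 2) +
        Real.exp t / ((1 - ε / 8) * t) * Real.log (4 * B) ≤
      Real.exp t * ((1 + ε) * Real.log t / t) := by
  have hlog2 : 0 < Real.log 2 := Real.log_pos (by norm_num)
  have hr1 : (1:ℝ) ≤ r := by exact_mod_cast hr
  set δ := ε / 8 with hδ
  have hδ0 : 0 < δ := by positivity
  have hδ1 : δ ≤ 1 / 8 := by rw [hδ]; linarith
  set K1 : ℝ := Real.log (102 * (r:ℝ) ^ 2) + 2 with hK1
  set K2 : ℝ := Real.log (408 * (r:ℝ) ^ 2) with hK2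
  have hrr : (1:ℝ) ≤ (r:ℝ) ^ 2 := one_le_pow₀ hr1
  have hK1' : 0 ≤ K1 := by
    have := Real.log_nonneg (by linarith : (1:ℝ) ≤ 102 * (r:ℝ) ^ 2)
    linarith
  have hK2' : 0 ≤ K2 := Real.log_nonneg (by linarith)
  have e1 : ∀ᶠ t : ℝ in Filter.atTop, (K1 + 3) * t ^ 2 ≤ ε / 4 * Real.exp (δ * t) := by
    have h := (isLittleO_pow_exp_pos_mul_atTop (k := 2) hδ0).bound
      (show 0 < ε / 4 / (K1 + 3) by positivity)
    filter_upwards [h] with t ht
    rw [Real.norm_of_nonneg (by positivity), Real.norm_of_nonneg (Real.exp_pos _).le,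
      div_mul_eq_mul_div, le_div_iff₀ (by positivity)] at ht
    linarith
  have e2 : ∀ᶠ t : ℝ in Filter.atTop, K2 ≤ ε / 8 * Real.log t := by
    have h := Real.tendsto_log_atTop.eventually_ge_atTop (K2 / (ε / 8))
    filter_upwards [h] with t ht
    rw [div_le_iff₀ (by positivity)] at ht
    linarith
  filter_upwards [e1, e2, Filter.eventually_ge_atTop (3:ℝ)] with t h1 h2 h3 B hB1 hB
  have ht0 : 0 < t := by linarith
  have hlogt : 1 ≤ Real.log t := by
    rw [Real.le_log_iff_exp_le ht0]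
    exact (Real.exp_one_lt_d9.le.trans (by norm_num)).trans h3
  have hlogt2 : Real.log t ≤ t := (Real.log_le_sub_one_of_pos ht0).trans (by linarith)
  have hB0 : 0 < B := by linarith
  -- first logarithm
  have a1 : Real.log (B * (Real.exp t / Real.log 2) ^ 2) ≤ K1 + 3 * t := by
    rw [Real.log_mul hB0.ne' (by positivity), Real.log_pow, Real.log_div (Real.exp_ne_zero t)
      hlog2.ne', Real.log_exp]
    have b1 : Real.log B ≤ Real.log (102 * (r:ℝ) ^ 2) + Real.log t := by
      rw [← Real.log_mul (by positivity) ht0.ne']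
      exact Real.log_le_log hB0 hB
    have b2 : -1 ≤ Real.log (Real.log 2) := by
      rw [Real.le_log_iff_exp_le hlog2]
      have c1 : Real.exp (-1) < 0.3678794412 := Real.exp_neg_one_lt_d9.trans_le (by norm_num)
      have c2 := Real.log_two_gt_d9
      linarith
    push_cast
    linarith
  have a2 : Real.log (4 * B) ≤ K2 + Real.log t := by
    rw [hK2, ← Real.log_mul (by positivity) ht0.ne']
    refine Real.log_le_log (by positivity) ?_
    linarith
  have a3 : Real.exp ((1 - δ) * t) = Real.exp t * Real.exp (-(δ * t)) := by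
    rw [← Real.exp_add]
    congr 1
    ring
  have hE : 0 < Real.exp t := Real.exp_pos t
  have hD : 0 < Real.exp (-(δ * t)) := Real.exp_pos _
  have a4 : Real.exp (-(δ * t)) * (K1 + 3 * t) * t ≤ ε / 4 := by
    have b1 : (K1 + 3 * t) * t ≤ (K1 + 3) * t ^ 2 := by
      nlinarith [mul_nonneg hK1' (mul_nonneg ht0.le (by linarith : (0:ℝ) ≤ t - 1))]
    have b2 : Real.exp (-(δ * t)) * Real.exp (δ * t) = 1 := by
      rw [← Real.exp_add]
      simp
    calc Real.exp (-(δ * t)) * (K1 + 3 * t) * t = Real.exp (-(δ * t)) * ((K1 + 3 * t) * t) := by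
          ring
      _ ≤ Real.exp (-(δ * t)) * ((K1 + 3) * t ^ 2) := mul_le_mul_of_nonneg_left b1 hD.le
      _ ≤ Real.exp (-(δ * t)) * (ε / 4 * Real.exp (δ * t)) := mul_le_mul_of_nonneg_left h1 hD.le
      _ = ε / 4 := by
          rw [mul_comm (ε / 4), ← mul_assoc, b2, one_mul]
  have a5 : Real.exp ((1 - δ) * t) * Real.log (B * (Real.exp t / Real.log 2) ^ 2) ≤
      Real.exp t * (ε / 4 * Real.log t / t) := by
    rw [a3]
    have b1 : Real.exp (-(δ * t)) * (K1 + 3 * t) ≤ ε / 4 * Real.log t / t := by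
      rw [le_div_iff₀ ht0]
      nlinarith
    calc Real.exp t * Real.exp (-(δ * t)) * Real.log (B * (Real.exp t / Real.log 2) ^ 2)
        ≤ Real.exp t * Real.exp (-(δ * t)) * (K1 + 3 * t) :=
          mul_le_mul_of_nonneg_left a1 (by positivity)
      _ = Real.exp t * (Real.exp (-(δ * t)) * (K1 + 3 * t)) := by ring
      _ ≤ _ := mul_le_mul_of_nonneg_left b1 hE.le
  have a6 : Real.exp t / ((1 - δ) * t) * Real.log (4 * B) ≤
      Real.exp t * ((1 + ε / 2) * Real.log t / t) := by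
    have b1 : Real.log (4 * B) ≤ (1 + ε / 8) * Real.log t := by linarith
    have b2 : (1 + ε / 8) / (1 - δ) ≤ 1 + ε / 2 := by
      rw [div_le_iff₀ (by linarith)]
      nlinarith
    calc Real.exp t / ((1 - δ) * t) * Real.log (4 * B)
        ≤ Real.exp t / ((1 - δ) * t) * ((1 + ε / 8) * Real.log t) :=
          mul_le_mul_of_nonneg_left b1 (by
            have : 0 < 1 - δ := by linarith
            positivity)
      _ = Real.exp t * (((1 + ε / 8) / (1 - δ)) * (Real.log t / t)) := by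
          have : 1 - δ ≠ 0 := by linarith
          field_simp
      _ ≤ Real.exp t * ((1 + ε / 2) * (Real.log t / t)) := by
          refine mul_le_mul_of_nonneg_left ?_ hE.le
          exact mul_le_mul_of_nonneg_right b2 (by positivity)
      _ = _ := by ring
  have a7 : Real.exp t * (ε / 4 * Real.log t / t) + Real.exp t * ((1 + ε / 2) * Real.log t / t) ≤
      Real.exp t * ((1 + ε) * Real.log t / t) := by
    rw [← mul_add, ← add_div]
    refine mul_le_mul_of_nonneg_left ?_ hE.le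
    refine div_le_div_of_nonneg_right ?_ ht0.le
    nlinarith
  linarith

/-- the bound for subsets of `{1, …, N}` -/
theorem bound_N (r : ℕ) {ε : ℝ} (hε : 0 < ε) :
    ∃ N₀ : ℕ, ∀ N : ℕ, N₀ ≤ N → ∀ A : Finset ℕ, A ⊆ Icc 1 N →
      (¬ ∃ S : Finset ℕ, S ⊆ A ∧ S.card = r ∧ GcdSunflower S) →
      (A.card : ℝ) ≤
        (N : ℝ) ^ ((1 + ε) * Real.log (Real.log (Real.log N)) / Real.log (Real.log N)) := by
  rcases Nat.eq_zero_or_pos r with hr | hr
  · refine ⟨0, fun N _ A _ hfree => ?_⟩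
    subst hr
    exact absurd ⟨∅, empty_subset A, card_empty, 1, one_pos, by simp, by simp⟩ hfree
  set ε' := min ε 1 with hε'
  have hε'0 : 0 < ε' := lt_min hε one_pos
  have hε'1 : ε' ≤ 1 := min_le_right _ _
  have hε'2 : ε' ≤ ε := min_le_left _ _
  have hT : Filter.Tendsto (fun N : ℕ => Real.log (Real.log (N:ℝ))) Filter.atTop Filter.atTop :=
    Real.tendsto_log_atTop.comp (Real.tendsto_log_atTop.comp tendsto_natCast_atTop_atTop)
  have hev := hT.eventually ((numeric r hr hε'0 hε'1).and (Filter.eventually_ge_atTop (5:ℝ)))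
  obtain ⟨N₀, hN₀⟩ := Filter.eventually_atTop.1 hev
  refine ⟨max N₀ 3, fun N hN A hAN hfree => ?_⟩
  obtain ⟨hnum, ht5⟩ := hN₀ N ((le_max_left _ _).trans hN)
  have hN3 : 3 ≤ N := (le_max_right _ _).trans hN
  have hNr : (3:ℝ) ≤ N := by exact_mod_cast hN3
  set t := Real.log (Real.log (N:ℝ)) with ht
  have hlog2 : 0 < Real.log 2 := Real.log_pos (by norm_num)
  have hlogN : 0 < Real.log N := Real.log_pos (by linarith)
  have hexpt : Real.exp t = Real.log N := Real.exp_log hlogN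
  rcases A.eq_empty_or_nonempty with hA0 | hne
  · rw [hA0]
    simp only [card_empty, Nat.cast_zero]
    positivity
  have hA : ∀ a ∈ A, 0 < a := fun a ha => (mem_Icc.1 (hAN ha)).1
  have hAle : ∀ a ∈ A, a ≤ N := fun a ha => (mem_Icc.1 (hAN ha)).2
  obtain ⟨a, ha, hcard⟩ := main_bound (r := r) (m := Nat.log 2 N) hA
    (fun a ha => card_primeFactors_le_log (hA a ha) (hAle a ha)) hne hfree
  set B : ℝ := 34 * (r:ℝ) ^ 2 * (Nat.log 2 (Nat.log 2 N) + 1) with hB
  have hr1 : (1:ℝ) ≤ r := by exact_mod_cast hr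
  have hrr : (1:ℝ) ≤ (r:ℝ) ^ 2 := one_le_pow₀ hr1
  have hB1 : 1 ≤ B := by
    have h0 : (0:ℝ) ≤ Nat.log 2 (Nat.log 2 N) := by positivity
    rw [hB]
    nlinarith
  have hB2 : B ≤ 102 * (r:ℝ) ^ 2 * t := by
    have h1 : 1 ≤ Nat.log 2 N := Nat.le_log_of_pow_le (by norm_num) (by omega)
    have h2 : ((Nat.log 2 N : ℕ) : ℝ) * Real.log 2 ≤ Real.log N := by
      rw [← Real.log_pow]
      refine Real.log_le_log (by positivity) ?_
      exact_mod_cast Nat.pow_log_le_self 2 (by omega : N ≠ 0)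
    have h3 : ((Nat.log 2 (Nat.log 2 N) : ℕ) : ℝ) * Real.log 2 ≤
        Real.log ((Nat.log 2 N : ℕ) : ℝ) := by
      rw [← Real.log_pow]
      refine Real.log_le_log (by positivity) ?_
      exact_mod_cast Nat.pow_log_le_self 2 (by omega : Nat.log 2 N ≠ 0)
    have h4 : Real.log ((Nat.log 2 N : ℕ) : ℝ) + Real.log (Real.log 2) ≤ t := by
      rw [← Real.log_mul (by positivity) hlog2.ne']
      exact Real.log_le_log (by positivity) h2
    have b2 : -1 ≤ Real.log (Real.log 2) := by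
      rw [Real.le_log_iff_exp_le hlog2]
      have c1 : Real.exp (-1) < 0.3678794412 := Real.exp_neg_one_lt_d9.trans_le (by norm_num)
      have c2 := Real.log_two_gt_d9
      linarith
    have h5 : ((Nat.log 2 (Nat.log 2 N) : ℕ) : ℝ) + 1 ≤ 3 * t := by
      have c2 := Real.log_two_gt_d9
      have h6 : ((Nat.log 2 (Nat.log 2 N) : ℕ) : ℝ) * 0.6 ≤ t + 1 := by
        have h0 : (0:ℝ) ≤ Nat.log 2 (Nat.log 2 N) := by positivity
        nlinarith
      linarith
    rw [hB]
    nlinarith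
  set y := Real.exp ((1 - ε' / 8) * t) with hy
  have hy1 : 1 < y := by
    rw [hy, Real.one_lt_exp_iff]
    have : 0 < 1 - ε' / 8 := by linarith
    positivity
  have h1 := wt_le_rpow hB1 (hA a ha) (hAle a ha) (by omega) hy1
  have hlogy : Real.log y = (1 - ε' / 8) * t := Real.log_exp _
  have h2 := hnum B hB1 hB2
  rw [hexpt] at h2
  have hU : 0 < B * (Real.log N / Real.log 2) ^ 2 := by positivity
  have h3 : (B * (Real.log N / Real.log 2) ^ 2) ^ y * (4 * B) ^ (Real.log N / Real.log y) =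
      Real.exp (y * Real.log (B * (Real.log N / Real.log 2) ^ 2) +
        Real.log N / ((1 - ε' / 8) * t) * Real.log (4 * B)) := by
    rw [Real.exp_add, Real.rpow_def_of_pos hU, Real.rpow_def_of_pos (by positivity), hlogy]
    congr 2 <;> ring
  have h4 : Real.log N * ((1 + ε') * Real.log t / t) ≤
      Real.log N * ((1 + ε) * Real.log t / t) := by
    refine mul_le_mul_of_nonneg_left ?_ hlogN.le
    refine div_le_div_of_nonneg_right ?_ (by linarith)
    have : 0 ≤ Real.log t := Real.log_nonneg (by linarith)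
    nlinarith
  calc (A.card : ℝ) ≤ _ := hcard.trans h1
    _ = _ := h3
    _ ≤ Real.exp (Real.log N * ((1 + ε) * Real.log t / t)) :=
        Real.exp_le_exp.2 (h2.trans h4)
    _ = (N:ℝ) ^ ((1 + ε) * Real.log t / t) := by
        rw [Real.rpow_def_of_pos (by linarith)]

/-- the bound for sets with `Ω(a) ≤ k` -/
theorem bound_k (r k m : ℕ) (A : Finset ℕ) (hA : ∀ a ∈ A, 0 < a)
    (hk : ∀ a ∈ A, a.primeFactorsList.length ≤ k) (hm : ∀ a ∈ A, a.primeFactors.card ≤ m)
    (hfree : ¬ ∃ S : Finset ℕ, S ⊆ A ∧ S.card = r ∧ GcdSunflower S) :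
    (A.card : ℝ) ≤ 4 ^ k * (34 * (r:ℝ) ^ 2 * (Nat.log 2 m + 1)) ^ m := by
  rcases Nat.eq_zero_or_pos r with hr | hr
  · subst hr
    exact absurd ⟨∅, empty_subset A, card_empty, 1, one_pos, by simp, by simp⟩ hfree
  have hr1 : (1:ℝ) ≤ r := by exact_mod_cast hr
  have hrr : (1:ℝ) ≤ (r:ℝ) ^ 2 := one_le_pow₀ hr1
  have hB1 : (1:ℝ) ≤ 34 * (r:ℝ) ^ 2 * (Nat.log 2 m + 1) := by
    have h0 : (0:ℝ) ≤ Nat.log 2 m := by positivity
    nlinarith
  rcases A.eq_empty_or_nonempty with hA0 | hne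
  · rw [hA0]
    simp only [card_empty, Nat.cast_zero]
    positivity
  obtain ⟨a, ha, hcard⟩ := main_bound (r := r) hA hm hne hfree
  refine hcard.trans ((wt_le _ (by linarith) a).trans ?_)
  rw [mul_comm]
  exact mul_le_mul (pow_le_pow_right₀ (by norm_num) (hk a ha)) (pow_le_pow_right₀ hB1 (hm a ha))
    (by positivity) (by positivity)

/-- exponential bound for sets whose elements have few distinct prime factors -/
theorem bound_few (r k m : ℕ) {D : ℝ} (hD : (m:ℝ) * Real.log (Nat.log 2 m + 1) ≤ D * k)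
    (A : Finset ℕ) (hA : ∀ a ∈ A, 0 < a)
    (hk : ∀ a ∈ A, a.primeFactorsList.length ≤ k) (hm : ∀ a ∈ A, a.primeFactors.card ≤ m)
    (hfree : ¬ ∃ S : Finset ℕ, S ⊆ A ∧ S.card = r ∧ GcdSunflower S) :
    (A.card : ℝ) ≤ (136 * (r:ℝ) ^ 2 * Real.exp D) ^ k := by
  rcases Nat.eq_zero_or_pos r with hr | hr
  · subst hr
    exact absurd ⟨∅, empty_subset A, card_empty, 1, one_pos, by simp, by simp⟩ hfree
  have hr1 : (1:ℝ) ≤ r := by exact_mod_cast hr
  have hrr : (1:ℝ) ≤ (r:ℝ) ^ 2 := one_le_pow₀ hr1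
  have h1 := bound_k r k (min m k) A hA hk (fun a ha => le_min (hm a ha)
    ((List.toFinset_card_le _).trans (hk a ha))) hfree
  refine h1.trans ?_
  have hL0 : (1:ℝ) ≤ (Nat.log 2 (min m k) : ℝ) + 1 := by
    have h0 : (0:ℝ) ≤ Nat.log 2 (min m k) := by positivity
    linarith
  have hL1 : (Nat.log 2 (min m k) : ℝ) + 1 ≤ Nat.log 2 m + 1 := by
    have : Nat.log 2 (min m k) ≤ Nat.log 2 m := Nat.log_mono_right (min_le_left _ _)
    have h0 : (Nat.log 2 (min m k) : ℝ) ≤ Nat.log 2 m := by exact_mod_cast this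
    linarith
  have hL : (0:ℝ) < Nat.log 2 m + 1 := by linarith
  have h2 : ((Nat.log 2 (min m k) : ℝ) + 1) ^ (min m k) ≤ Real.exp D ^ k := by
    calc ((Nat.log 2 (min m k) : ℝ) + 1) ^ (min m k)
        ≤ ((Nat.log 2 m : ℝ) + 1) ^ (min m k) := pow_le_pow_left₀ (by linarith) hL1 _
      _ ≤ ((Nat.log 2 m : ℝ) + 1) ^ m := pow_le_pow_right₀ (hL0.trans hL1) (min_le_left _ _)
      _ = Real.exp ((m:ℝ) * Real.log (Nat.log 2 m + 1)) := by
          rw [Real.exp_nat_mul, Real.exp_log hL]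
      _ ≤ Real.exp (D * k) := Real.exp_le_exp.2 hD
      _ = Real.exp D ^ k := by rw [mul_comm, Real.exp_nat_mul]
  have h3 : (34 * (r:ℝ) ^ 2) ^ (min m k) ≤ (34 * (r:ℝ) ^ 2) ^ k :=
    pow_le_pow_right₀ (by linarith) (min_le_right _ _)
  calc (4:ℝ) ^ k * (34 * (r:ℝ) ^ 2 * (Nat.log 2 (min m k) + 1)) ^ (min m k)
      = 4 ^ k * ((34 * (r:ℝ) ^ 2) ^ (min m k) * ((Nat.log 2 (min m k) : ℝ) + 1) ^ (min m k)) := by
        rw [mul_pow (34 * (r:ℝ) ^ 2)]
    _ ≤ 4 ^ k * ((34 * (r:ℝ) ^ 2) ^ k * Real.exp D ^ k) := by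
        refine mul_le_mul_of_nonneg_left ?_ (by positivity)
        exact mul_le_mul h3 h2 (by positivity) (by positivity)
    _ = (136 * (r:ℝ) ^ 2 * Real.exp D) ^ k := by
        rw [← mul_pow, ← mul_pow]
        congr 1
        ring

end Pool.Agent.Helper10.GcdSun
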