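import Mathlib
import Pool.Agent.Helper10.GcdSun.Bound

/-!
Q1 is equivalent to the sunflower conjecture of Erdős and Rado.
-/

open Finset

namespace Pool.Agent.Helper10.GcdSun

/-- the family `G` is a sunflower: all intersections of two different members are equal -/
def IsSunflower (G : Finset (Finset ℕ)) : Prop :=
  ∃ K : Finset ℕ, ∀ S ∈ G, ∀ T ∈ G, S ≠ T → S ∩ T = K

/-- From `A` one can select a subset in which the exponents of the primes in `P` are uniform. -/
theorem exists_uniform (P : Finset ℕ) : ∀ (A : Finset ℕ) (w : ℕ → ℝ), (∀ a, 0 ≤ w a) →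
    ∃ A' : Finset ℕ, A' ⊆ A ∧
      (∀ p ∈ P, ∀ a ∈ A', ∀ b ∈ A', a.factorization p ≠ 0 → b.factorization p ≠ 0 →
        a.factorization p = b.factorization p) ∧
      ∑ a ∈ A, w a * ∏ p ∈ P, (1 / 2 : ℝ) ^ a.factorization p ≤ ∑ a ∈ A', w a := by
  classical
  induction P using Finset.induction_on with
  | empty =>
    intro A w _
    exact ⟨A, subset_refl _, by simp, by simp⟩
  | insert p P hp ih =>
    intro A w hw
    obtain ⟨A', h1, h2, h3⟩ := ih A (fun a => w a * (1 / 2 : ℝ) ^ a.factorization p)
      (fun a => mul_nonneg (hw a) (by positivity))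
    -- the exponents of `p`
    set K := (A'.sup (fun a => a.factorization p)) + 1 with hK
    have hKb : ∀ a ∈ A', a.factorization p < K := by
      intro a ha
      have : a.factorization p ≤ A'.sup (fun a => a.factorization p) :=
        le_sup (f := fun a => a.factorization p) ha
      omega
    obtain ⟨e, he, hmax⟩ := exists_max_image (Ioc 0 K)
      (fun e => ∑ a ∈ A'.filter (fun a => a.factorization p = e), w a)
      ⟨K, mem_Ioc.2 ⟨by omega, le_refl _⟩⟩
    have he0 : e ≠ 0 := (mem_Ioc.1 he).1.ne'
    refine ⟨A'.filter (fun a => a.factorization p = 0 ∨ a.factorization p = e),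
      (filter_subset _ _).trans h1, ?_, ?_⟩
    · intro q hq a ha b hb ha0 hb0
      rw [mem_filter] at ha hb
      rcases mem_insert.1 hq with h | h
      · subst h
        rw [ha.2.resolve_left ha0, hb.2.resolve_left hb0]
      · exact h2 q h a ha.1 b hb.1 ha0 hb0
    · have e1 : ∑ a ∈ A, w a * ∏ q ∈ insert p P, (1 / 2 : ℝ) ^ a.factorization q =
          ∑ a ∈ A, w a * (1 / 2 : ℝ) ^ a.factorization p *
            ∏ q ∈ P, (1 / 2 : ℝ) ^ a.factorization q := by
        refine sum_congr rfl fun a _ => ?_
        rw [prod_insert hp]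
        ring
      rw [e1]
      refine h3.trans ?_
      set W : ℕ → ℝ := fun e => ∑ a ∈ A'.filter (fun a => a.factorization p = e), w a with hW
      have hW0 : ∀ e, 0 ≤ W e := fun e => sum_nonneg fun a _ => hw a
      have e2 : ∑ a ∈ A', w a * (1 / 2 : ℝ) ^ a.factorization p =
          ∑ f ∈ Icc 0 K, W f * (1 / 2 : ℝ) ^ f := by
        rw [← sum_fiberwise_of_maps_to (s := A') (t := Icc 0 K) (g := fun a => a.factorization p)
          (fun a ha => mem_Icc.2 ⟨Nat.zero_le _, (hKb a ha).le⟩)]
        refine sum_congr rfl fun f _ => ?_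
        rw [hW]
        simp only
        rw [sum_mul]
        refine sum_congr rfl fun a ha => ?_
        rw [(mem_filter.1 ha).2]
      have e3 : ∑ f ∈ Icc 0 K, W f * (1 / 2 : ℝ) ^ f ≤ W 0 + W e := by
        have e4 : Icc 0 K = insert 0 (Ioc 0 K) := by
          ext x
          simp only [mem_Icc, mem_insert, mem_Ioc]
          omega
        rw [e4, sum_insert (by simp)]
        simp only [pow_zero, mul_one]
        refine add_le_add_right ?_ _
        calc ∑ f ∈ Ioc 0 K, W f * (1 / 2 : ℝ) ^ f ≤ ∑ f ∈ Ioc 0 K, W e * (1 / 2 : ℝ) ^ f :=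
              sum_le_sum fun f hf => mul_le_mul_of_nonneg_right (hmax f hf) (by positivity)
          _ = W e * ∑ f ∈ Ioc 0 K, (1 / 2 : ℝ) ^ f := by rw [mul_sum]
          _ ≤ W e * 1 := by
              refine mul_le_mul_of_nonneg_left ?_ (hW0 e)
              have : ∀ n : ℕ, ∑ f ∈ Ioc 0 n, (1 / 2 : ℝ) ^ f = 1 - (1 / 2) ^ n := by
                intro n
                induction n with
                | zero => simp
                | succ n ihn =>
                  rw [sum_Ioc_succ_top (by omega), ihn, pow_succ]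
                  ring
              rw [this]
              have : (0:ℝ) ≤ (1 / 2) ^ K := by positivity
              linarith
          _ = W e := mul_one _
      have e5 : ∑ a ∈ A'.filter (fun a => a.factorization p = 0 ∨ a.factorization p = e), w a =
          W 0 + W e := by
        rw [filter_or, sum_union]
        rw [disjoint_filter]
        intro a _ h0 h0'
        exact he0 (h0' ▸ h0 ▸ rfl)
      rw [e5, e2]
      exact e3

/-- Every family of `k`-element sets without a sunflower with `r` members has at most `M`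
members. -/
def SetBound (r k : ℕ) (M : ℝ) : Prop :=
  ∀ F : Finset (Finset ℕ), (∀ S ∈ F, S.card = k) →
    (¬ ∃ G : Finset (Finset ℕ), G ⊆ F ∧ G.card = r ∧ IsSunflower G) → (F.card : ℝ) ≤ M

/-- Every finite set `A` of positive integers with `Ω(a) = k` for all `a` in `A`, without a
gcd-sunflower with `r` elements, has at most `M` elements. -/
def GcdBound (r k : ℕ) (M : ℝ) : Prop :=
  ∀ A : Finset ℕ, (∀ a ∈ A, 0 < a ∧ a.primeFactorsList.length = k) →
    (¬ ∃ S : Finset ℕ, S ⊆ A ∧ S.card = r ∧ GcdSunflower S) → (A.card : ℝ) ≤ M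

/-! ### from integers to sets -/

/-- the integer which belongs to a set -/
noncomputable def enc (S : Finset ℕ) : ℕ := ∏ i ∈ S, Nat.nth Nat.Prime i

theorem prime_nth (i : ℕ) : (Nat.nth Nat.Prime i).Prime :=
  Nat.nth_mem_of_infinite Nat.infinite_setOfPred_prime i

theorem nth_inj {i j : ℕ} (h : Nat.nth Nat.Prime i = Nat.nth Nat.Prime j) : i = j :=
  (Nat.nth_injective Nat.infinite_setOfPred_prime) h

theorem dvd_enc {S : Finset ℕ} {i : ℕ} : Nat.nth Nat.Prime i ∣ enc S ↔ i ∈ S := by
  unfold enc
  rw [Prime.dvd_finsetProd_iff (prime_nth i).prime]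
  constructor
  · rintro ⟨j, hj, h⟩
    rwa [nth_inj ((Nat.prime_dvd_prime_iff_eq (prime_nth i) (prime_nth j)).1 h)]
  · intro h
    exact ⟨i, h, dvd_rfl⟩

theorem enc_pos (S : Finset ℕ) : 0 < enc S := prod_pos fun i _ => (prime_nth i).pos

theorem enc_inj : Function.Injective enc := by
  intro S T h
  ext i
  rw [← dvd_enc, ← dvd_enc, h]

theorem length_enc (S : Finset ℕ) : (enc S).primeFactorsList.length = S.card := by
  classical
  rw [← ArithmeticFunction.cardFactors_apply]
  induction S using Finset.induction_on with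
  | empty => simp [enc]
  | insert i S hi ih =>
    have : enc (insert i S) = Nat.nth Nat.Prime i * enc S := prod_insert hi
    rw [this, ArithmeticFunction.cardFactors_mul (prime_nth i).ne_zero (enc_pos S).ne', ih,
      ArithmeticFunction.cardFactors_apply_prime (prime_nth i), card_insert_of_notMem hi, add_comm]

theorem setBound_of_gcdBound {r k : ℕ} {M : ℝ} (hbound : GcdBound r k M) : SetBound r k M := by
  classical
  intro F hF hfree
  have h1 := hbound (F.image enc) ?_ ?_
  · rwa [card_image_of_injective _ enc_inj] at h1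
  · intro a ha
    obtain ⟨S, hS, rfl⟩ := mem_image.1 ha
    exact ⟨enc_pos S, (length_enc S).trans (hF S hS)⟩
  · rintro ⟨S', hS', hcard, d, hd, hgcd, -⟩
    have hG : S' = (F.filter (fun S => enc S ∈ S')).image enc := by
      ext a
      constructor
      · intro ha
        obtain ⟨S, hS, rfl⟩ := mem_image.1 (hS' ha)
        exact mem_image.2 ⟨S, mem_filter.2 ⟨hS, ha⟩, rfl⟩
      · intro ha
        obtain ⟨S, hS, rfl⟩ := mem_image.1 ha
        exact (mem_filter.1 hS).2
    refine hfree ⟨F.filter (fun S => enc S ∈ S'), filter_subset _ _, ?_,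
      ((F.filter (fun S => enc S ∈ S')).biUnion id).filter
        (fun i => Nat.nth Nat.Prime i ∣ d), ?_⟩
    · rw [hG, card_image_of_injective _ enc_inj] at hcard
      exact hcard
    · intro S hS T hT hST
      have hg := hgcd _ (mem_filter.1 hS).2 _ (mem_filter.1 hT).2 (fun h => hST (enc_inj h))
      ext i
      rw [mem_inter, mem_filter, ← hg, Nat.dvd_gcd_iff, dvd_enc, dvd_enc]
      constructor
      · rintro ⟨a, b⟩
        exact ⟨mem_biUnion.2 ⟨S, hS, a⟩, a, b⟩
      · rintro ⟨-, a, b⟩
        exact ⟨a, b⟩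

/-! ### from sets to integers -/

/-- the prime factors of `a`, together with private elements, `k` elements altogether -/
def pad (k a : ℕ) : Finset ℕ :=
  a.primeFactors.image (fun p => 2 * p) ∪
    (range (k - a.primeFactors.card)).image (fun i => 2 * Nat.pair a i + 1)

theorem even_mem_pad {k a p : ℕ} : 2 * p ∈ pad k a ↔ p ∈ a.primeFactors := by
  unfold pad
  rw [mem_union, mem_image, mem_image]
  constructor
  · rintro (⟨q, hq, h⟩ | ⟨i, _, h⟩)
    · rwa [← Nat.eq_of_mul_eq_mul_left two_pos h]
    · omega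
  · intro h
    exact Or.inl ⟨p, h, rfl⟩

theorem card_pad {k a : ℕ} (h : a.primeFactors.card ≤ k) : (pad k a).card = k := by
  unfold pad
  rw [card_union_of_disjoint, card_image_of_injective, card_image_of_injective, card_range]
  · omega
  · intro i j hij
    have h1 : Nat.pair a i = Nat.pair a j := by
      have : 2 * Nat.pair a i + 1 = 2 * Nat.pair a j + 1 := hij
      omega
    exact (Nat.pair_eq_pair.1 h1).2
  · intro i j hij
    have : 2 * i = 2 * j := hij
    omega
  · rw [disjoint_left]
    intro x hx hx'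
    obtain ⟨i, _, rfl⟩ := mem_image.1 hx
    obtain ⟨j, _, h⟩ := mem_image.1 hx'
    omega

theorem gcdBound_of_setBound {r k : ℕ} (hr : 2 ≤ r) {M : ℝ} (hbound : SetBound r k M) :
    GcdBound r k (2 ^ k * M) := by
  classical
  intro A hA hfree
  obtain ⟨A', hA', huni, hsum⟩ := exists_uniform (A.biUnion Nat.primeFactors) A (fun _ => 1)
    (fun _ => zero_le_one)
  -- exponents
  have hΩ : ∀ a ∈ A, ∏ p ∈ A.biUnion Nat.primeFactors, (1 / 2 : ℝ) ^ a.factorization p =
      (1 / 2) ^ k := by
    intro a ha
    rw [prod_pow_eq_pow_sum]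
    congr 1
    have h1 : ∑ p ∈ A.biUnion Nat.primeFactors, a.factorization p =
        ∑ p ∈ a.primeFactors, a.factorization p := by
      symm
      refine sum_subset (fun p hp => mem_biUnion.2 ⟨a, ha, hp⟩) fun p _ hp => ?_
      exact Finsupp.notMem_support_iff.1 hp
    have h2 := ArithmeticFunction.cardFactors_eq_sum_factorization (n := a)
    rw [ArithmeticFunction.cardFactors_apply, (hA a ha).2] at h2
    rw [h1, h2]
    rfl
  have hcard : (A.card : ℝ) * (1 / 2) ^ k ≤ A'.card := by
    have e1 : ∑ a ∈ A, (1:ℝ) * ∏ p ∈ A.biUnion Nat.primeFactors, (1 / 2 : ℝ) ^ a.factorization p =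
        A.card * (1 / 2) ^ k := by
      rw [sum_congr rfl fun a ha => by rw [one_mul, hΩ a ha], sum_const, nsmul_eq_mul]
    rw [e1] at hsum
    simpa using hsum
  have hω : ∀ a ∈ A, a.primeFactors.card ≤ k := by
    intro a ha
    rw [← (hA a ha).2]
    exact List.toFinset_card_le _
  have hunif : ∀ a ∈ A', ∀ b ∈ A', ∀ p, p ∈ a.primeFactors → p ∈ b.primeFactors →
      a.factorization p = b.factorization p := by
    intro a ha b hb p hpa hpb
    exact huni p (mem_biUnion.2 ⟨a, hA' ha, hpa⟩) a ha b hb
      (Finsupp.mem_support_iff.1 hpa) (Finsupp.mem_support_iff.1 hpb)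
  have hinj : ∀ a ∈ A', ∀ b ∈ A', pad k a = pad k b → a = b := by
    intro a ha b hb hab
    have h1 : ∀ p, p ∈ a.primeFactors ↔ p ∈ b.primeFactors := by
      intro p
      rw [← even_mem_pad (k := k), ← even_mem_pad (k := k) (a := b), hab]
    refine Nat.eq_of_factorization_eq (hA a (hA' ha)).1.ne' (hA b (hA' hb)).1.ne' fun p => ?_
    by_cases hp : p ∈ a.primeFactors
    · exact hunif a ha b hb p hp ((h1 p).1 hp)
    · have hp' : p ∉ b.primeFactors := fun h => hp ((h1 p).2 h)
      rw [Finsupp.notMem_support_iff.1 (show p ∉ a.factorization.support from hp),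
        Finsupp.notMem_support_iff.1 (show p ∉ b.factorization.support from hp')]
  have h1 := hbound (A'.image (pad k)) ?_ ?_
  · rw [card_image_of_injOn (fun a ha b hb hab => hinj a ha b hb hab)] at h1
    have h2 := hcard.trans h1
    have h3 : (0:ℝ) < (1 / 2) ^ k := by positivity
    have h4 : (2:ℝ) ^ k * (1 / 2) ^ k = 1 := by rw [← mul_pow]; norm_num
    nlinarith [mul_le_mul_of_nonneg_left h2 (show (0:ℝ) ≤ 2 ^ k by positivity)]
  · intro S hS
    obtain ⟨a, ha, rfl⟩ := mem_image.1 hS
    exact card_pad (hω a (hA' ha))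
  · rintro ⟨G, hG, hGcard, K, hK⟩
    set S := A'.filter (fun a => pad k a ∈ G) with hS
    have hSA : ∀ a ∈ S, a ∈ A' := fun a ha => (mem_filter.1 ha).1
    have hSG : ∀ a ∈ S, pad k a ∈ G := fun a ha => (mem_filter.1 ha).2
    have hGim : G = S.image (pad k) := by
      ext T
      constructor
      · intro hT
        obtain ⟨a, ha, rfl⟩ := mem_image.1 (hG hT)
        exact mem_image.2 ⟨a, mem_filter.2 ⟨ha, hT⟩, rfl⟩
      · intro hT
        obtain ⟨a, ha, rfl⟩ := mem_image.1 hT
        exact hSG a ha
    have hScard : S.card = r := by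
      rw [← hGcard, hGim, card_image_of_injOn]
      intro a ha b hb hab
      exact hinj a (hSA a ha) b (hSA b hb) hab
    have hcap : ∀ a ∈ S, ∀ b ∈ S, a ≠ b → ∀ p, (p ∈ a.primeFactors ∧ p ∈ b.primeFactors) ↔
        2 * p ∈ K := by
      intro a ha b hb hab p
      rw [← hK _ (hSG a ha) _ (hSG b hb) (fun h => hab (hinj a (hSA a ha) b (hSA b hb) h)),
        mem_inter, even_mem_pad, even_mem_pad]
    obtain ⟨a0, ha0, b0, hb0, hab0⟩ := one_lt_card.1 (show 1 < S.card by omega)
    have hpos : ∀ a ∈ S, a ≠ 0 := fun a ha => (hA a (hA' (hSA a ha))).1.ne'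
    have hgcd : ∀ a ∈ S, ∀ b ∈ S, a ≠ b → Nat.gcd a b = Nat.gcd a0 b0 := by
      intro a ha b hb hab
      refine Nat.eq_of_factorization_eq (Nat.gcd_ne_zero_left (hpos a ha))
        (Nat.gcd_ne_zero_left (hpos a0 ha0)) fun p => ?_
      rw [Nat.factorization_gcd (hpos a ha) (hpos b hb),
        Nat.factorization_gcd (hpos a0 ha0) (hpos b0 hb0), Finsupp.inf_apply, Finsupp.inf_apply]
      by_cases hp : 2 * p ∈ K
      · obtain ⟨p1, p2⟩ := (hcap a ha b hb hab p).2 hp
        obtain ⟨p3, p4⟩ := (hcap a0 ha0 b0 hb0 hab0 p).2 hp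
        rw [hunif a (hSA a ha) b (hSA b hb) p p1 p2,
          hunif a0 (hSA a0 ha0) b0 (hSA b0 hb0) p p3 p4,
          hunif b (hSA b hb) b0 (hSA b0 hb0) p p2 p4]
      · have z1 : a.factorization p ⊓ b.factorization p = 0 := by
          by_contra hz
          apply hp
          rw [← hcap a ha b hb hab p]
          constructor
          · show p ∈ a.factorization.support
            exact Finsupp.mem_support_iff.2 fun h => hz (by rw [h]; simp)
          · show p ∈ b.factorization.support
            exact Finsupp.mem_support_iff.2 fun h => hz (by rw [h]; simp)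
        have z2 : a0.factorization p ⊓ b0.factorization p = 0 := by
          by_contra hz
          apply hp
          rw [← hcap a0 ha0 b0 hb0 hab0 p]
          constructor
          · show p ∈ a0.factorization.support
            exact Finsupp.mem_support_iff.2 fun h => hz (by rw [h]; simp)
          · show p ∈ b0.factorization.support
            exact Finsupp.mem_support_iff.2 fun h => hz (by rw [h]; simp)
        rw [z1, z2]
    refine hfree ⟨S, fun a ha => hA' (hSA a ha), hScard, Nat.gcd a0 b0,
      Nat.gcd_pos_of_pos_left _ (Nat.pos_of_ne_zero (hpos a0 ha0)), hgcd, ?_⟩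
    intro a ha
    obtain ⟨b, hb, hab⟩ : ∃ b ∈ S, a ≠ b := by
      by_cases h : a = a0
      · exact ⟨b0, hb0, h ▸ hab0⟩
      · exact ⟨a0, ha0, h⟩
    rw [← hgcd a ha b hb hab]
    obtain ⟨q, hq⟩ := Nat.gcd_dvd_left a b
    refine ⟨q, hq, ?_⟩
    have hq0 : q ≠ 0 := by
      rintro rfl
      rw [mul_zero] at hq
      exact hpos a ha hq
    have hg0 : Nat.gcd a b ≠ 0 := Nat.gcd_ne_zero_left (hpos a ha)
    rw [Nat.coprime_iff_gcd_eq_one, Nat.eq_one_iff_not_exists_prime_dvd]
    intro p hp hpd
    have hpq : p ∣ q := hpd.trans (Nat.gcd_dvd_left _ _)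
    have hpg : p ∣ Nat.gcd a b := hpd.trans (Nat.gcd_dvd_right _ _)
    have hpa : p ∈ a.primeFactors :=
      Nat.mem_primeFactors.2 ⟨hp, hpg.trans (Nat.gcd_dvd_left a b), hpos a ha⟩
    have hpb : p ∈ b.primeFactors :=
      Nat.mem_primeFactors.2 ⟨hp, hpg.trans (Nat.gcd_dvd_right a b), hpos b hb⟩
    have e1 : (Nat.gcd a b).factorization p = a.factorization p := by
      rw [Nat.factorization_gcd (hpos a ha) (hpos b hb), Finsupp.inf_apply,
        ← hunif a (hSA a ha) b (hSA b hb) p hpa hpb, inf_idem]
    have e2 : a.factorization p = (Nat.gcd a b).factorization p + q.factorization p := by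
      conv_lhs => rw [hq]
      rw [Nat.factorization_mul hg0 hq0, Finsupp.add_apply]
    have e3 := hp.factorization_pos_of_dvd hq0 hpq
    omega

end Pool.Agent.Helper10.GcdSun
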