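import Pool.Agent.Helper72.GcdSun.Lym
import Pool.Agent.Helper10.GcdSun.Cor

/-!
Bounds for sets with `Ω(a) ≤ k`, with linear dependence on `r`, from the inequality `lym` of
Helper72.
-/

open Finset Real

namespace Pool.Agent.Helper10.GcdSun

theorem free_iff {r : ℕ} {A : Finset ℕ} (hA : ∀ a ∈ A, 0 < a)
    (hfree : ¬ ∃ S : Finset ℕ, S ⊆ A ∧ S.card = r ∧ GcdSunflower S) :
    Pool.Agent.Helper72.GcdSun.Free r A := ⟨hA, hfree⟩

theorem lym' {r m : ℕ} (hr : 1 ≤ r) {A : Finset ℕ} (hA : ∀ a ∈ A, 0 < a)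
    (hfree : ¬ ∃ S : Finset ℕ, S ⊆ A ∧ S.card = r ∧ GcdSunflower S)
    (hm : ∀ a ∈ A, a.primeFactors.card ≤ m) (w : ℕ → ℝ) (hw : ∀ e, 0 ≤ w e)
    (hw1 : ∀ n, ∑ e ∈ range n, w (e + 1) ≤ 1) (x : ℕ → ℝ) (hx : ∀ t, 0 ≤ x t) :
    ∑ a ∈ A, x a.primeFactors.card * ∏ p ∈ a.primeFactors, w (a.factorization p) ≤
      ∑ t ∈ range (m + 1), x t * (32 * (r:ℝ) * (Nat.log 2 t + 1)) ^ t := by
  have h := Pool.Agent.Helper72.GcdSun.lym hr (free_iff hA hfree) hm w hw hw1 x hx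
  simp only [Pool.Agent.Helper72.GcdSun.wt, Pool.Agent.Helper72.GcdSun.Rc] at h
  push_cast at h
  exact h

theorem half_sum (n : ℕ) : ∑ e ∈ range n, (1 / 2 : ℝ) ^ (e + 1) ≤ 1 := by
  have : ∀ n : ℕ, ∑ e ∈ range n, (1 / 2 : ℝ) ^ (e + 1) = 1 - (1 / 2) ^ n := by
    intro n
    induction n with
    | zero => simp
    | succ n ih =>
      rw [sum_range_succ, ih, pow_succ]
      ring
  rw [this]
  have : (0:ℝ) ≤ (1 / 2) ^ n := by positivity
  linarith

theorem geom_bound {R : ℝ} (hR : 2 ≤ R) (m : ℕ) : ∑ t ∈ range (m + 1), R ^ t ≤ 2 * R ^ m := by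
  induction m with
  | zero => simp
  | succ m ih =>
    rw [sum_range_succ, pow_succ]
    have : 0 ≤ R ^ m := by positivity
    nlinarith

/-- the bound for sets with `Ω(a) ≤ k` -/
theorem bound_k' (r k m : ℕ) (hr : 1 ≤ r) (A : Finset ℕ) (hA : ∀ a ∈ A, 0 < a)
    (hk : ∀ a ∈ A, a.primeFactorsList.length ≤ k) (hm : ∀ a ∈ A, a.primeFactors.card ≤ m)
    (hfree : ¬ ∃ S : Finset ℕ, S ⊆ A ∧ S.card = r ∧ GcdSunflower S) :
    (A.card : ℝ) ≤ 2 ^ (k + 1) * (32 * (r:ℝ) * (Nat.log 2 m + 1)) ^ m := by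
  have hr1 : (1:ℝ) ≤ r := by exact_mod_cast hr
  have h := lym' hr hA hfree hm (fun e => (1 / 2 : ℝ) ^ e) (fun e => by positivity) half_sum
    (fun _ => 1) (fun _ => zero_le_one)
  simp only [one_mul] at h
  have h1 : ∀ a ∈ A, (1 / 2 : ℝ) ^ k ≤ ∏ p ∈ a.primeFactors, (1 / 2 : ℝ) ^ a.factorization p := by
    intro a ha
    have h2 : a.primeFactorsList.length = ∑ p ∈ a.primeFactors, a.factorization p := by
      have := ArithmeticFunction.cardFactors_eq_sum_factorization (n := a)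
      rw [ArithmeticFunction.cardFactors_apply] at this
      rw [this, Finsupp.sum]
      rfl
    rw [prod_pow_eq_pow_sum, ← h2]
    exact pow_le_pow_of_le_one (by norm_num) (by norm_num) (hk a ha)
  have h3 : (A.card : ℝ) * (1 / 2) ^ k ≤
      ∑ a ∈ A, ∏ p ∈ a.primeFactors, (1 / 2 : ℝ) ^ a.factorization p := by
    rw [← nsmul_eq_mul]
    exact card_nsmul_le_sum _ _ _ h1
  set R : ℝ := 32 * (r:ℝ) * (Nat.log 2 m + 1) with hR
  have hR2 : 2 ≤ R := by
    have h0 : (0:ℝ) ≤ Nat.log 2 m := by positivity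
    rw [hR]
    nlinarith
  have h4 : ∑ t ∈ range (m + 1), (32 * (r:ℝ) * (Nat.log 2 t + 1)) ^ t ≤ 2 * R ^ m := by
    refine le_trans (sum_le_sum fun t ht => ?_) (geom_bound hR2 m)
    refine pow_le_pow_left₀ (by positivity) ?_ _
    rw [hR]
    refine mul_le_mul_of_nonneg_left ?_ (by positivity)
    have : Nat.log 2 t ≤ Nat.log 2 m :=
      Nat.log_mono_right (Nat.lt_succ_iff.1 (mem_range.1 ht))
    have h0 : (Nat.log 2 t : ℝ) ≤ Nat.log 2 m := by exact_mod_cast this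
    linarith
  have h5 : (A.card : ℝ) * (1 / 2) ^ k ≤ 2 * R ^ m := h3.trans (h.trans h4)
  have h6 : (2:ℝ) ^ k * (1 / 2) ^ k = 1 := by rw [← mul_pow]; norm_num
  calc (A.card : ℝ) = 2 ^ k * ((A.card : ℝ) * (1 / 2) ^ k) := by
        rw [mul_left_comm, h6, mul_one]
    _ ≤ 2 ^ k * (2 * R ^ m) := mul_le_mul_of_nonneg_left h5 (by positivity)
    _ = 2 ^ (k + 1) * R ^ m := by rw [pow_succ]; ring

/-- exponential bound for sets whose elements have few distinct prime factors -/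
theorem bound_few' (r k m : ℕ) (hr : 1 ≤ r) {D : ℝ}
    (hD : (m:ℝ) * Real.log (Nat.log 2 m + 1) ≤ D * k)
    (A : Finset ℕ) (hA : ∀ a ∈ A, 0 < a)
    (hk : ∀ a ∈ A, a.primeFactorsList.length ≤ k) (hm : ∀ a ∈ A, a.primeFactors.card ≤ m)
    (hfree : ¬ ∃ S : Finset ℕ, S ⊆ A ∧ S.card = r ∧ GcdSunflower S) :
    (A.card : ℝ) ≤ (128 * (r:ℝ) * Real.exp D) ^ k := by
  rcases Nat.eq_zero_or_pos k with hk0 | hk0
  · subst hk0
    have h1 : A ⊆ {1} := by
      intro a ha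
      have h2 := hk a ha
      rw [Nat.le_zero, List.length_eq_zero_iff, Nat.primeFactorsList_eq_nil] at h2
      have h3 := hA a ha
      exact mem_singleton.2 (by omega)
    have h2 := card_le_card h1
    rw [card_singleton] at h2
    rw [pow_zero]
    exact_mod_cast h2
  have hr1 : (1:ℝ) ≤ r := by exact_mod_cast hr
  have h1 := bound_k' r k (min m k) hr A hA hk (fun a ha => le_min (hm a ha)
    ((List.toFinset_card_le _).trans (hk a ha))) hfree
  refine h1.trans ?_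
  have hL0 : (1:ℝ) ≤ (Nat.log 2 (min m k) : ℝ) + 1 := by
    have h0 : (0:ℝ) ≤ Nat.log 2 (min m k) := by positivity
    linarith
  have hL1 : (Nat.log 2 (min m k) : ℝ) + 1 ≤ Nat.log 2 m + 1 := by
    have : Nat.log 2 (min m k) ≤ Nat.log 2 m := Nat.log_mono_right (min_le_left _ _)
    have h0 : (Nat.log 2 (min m k) : ℝ) ≤ Nat.log 2 m := by exact_mod_cast this
    linarith
  have hL : (0:ℝ) < Nat.log 2 m + 1 := by linarith
  have h2 : ((Nat.log 2 (min m k) : ℝ) + 1) ^ (min m k) ≤ Real.exp D ^ k := by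
    calc ((Nat.log 2 (min m k) : ℝ) + 1) ^ (min m k)
        ≤ ((Nat.log 2 m : ℝ) + 1) ^ (min m k) := pow_le_pow_left₀ (by linarith) hL1 _
      _ ≤ ((Nat.log 2 m : ℝ) + 1) ^ m := pow_le_pow_right₀ (hL0.trans hL1) (min_le_left _ _)
      _ = Real.exp ((m:ℝ) * Real.log (Nat.log 2 m + 1)) := by
          rw [Real.exp_nat_mul, Real.exp_log hL]
      _ ≤ Real.exp (D * k) := Real.exp_le_exp.2 hD
      _ = Real.exp D ^ k := by rw [mul_comm, Real.exp_nat_mul]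
  have h3 : (32 * (r:ℝ)) ^ (min m k) ≤ (32 * (r:ℝ)) ^ k :=
    pow_le_pow_right₀ (by linarith) (min_le_right _ _)
  have h4 : (2:ℝ) ^ (k + 1) ≤ 4 ^ k := by
    calc (2:ℝ) ^ (k + 1) ≤ 2 ^ (2 * k) := pow_le_pow_right₀ (by norm_num) (by omega)
      _ = 4 ^ k := by rw [pow_mul]; norm_num
  calc (2:ℝ) ^ (k + 1) * (32 * (r:ℝ) * (Nat.log 2 (min m k) + 1)) ^ (min m k)
      = 2 ^ (k + 1) * ((32 * (r:ℝ)) ^ (min m k) *
          ((Nat.log 2 (min m k) : ℝ) + 1) ^ (min m k)) := by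
        rw [mul_pow (32 * (r:ℝ))]
    _ ≤ 4 ^ k * ((32 * (r:ℝ)) ^ k * Real.exp D ^ k) := by
        refine mul_le_mul h4 ?_ (by positivity) (by positivity)
        exact mul_le_mul h3 h2 (by positivity) (by positivity)
    _ = (128 * (r:ℝ) * Real.exp D) ^ k := by
        rw [← mul_pow, ← mul_pow]
        congr 1
        ring

end Pool.Agent.Helper10.GcdSun
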